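import Pool.Agent.Y916.Om.Bas

/-!
# Windows with a field depending on the index
-/

set_option autoImplicit false

open Module

namespace Pool.Agent.Y916.Om

theorem span_field {Ω : Type} [Field Ω] [CharZero Ω] {K L : IntermediateField ℚ Ω} (hKL : K ≤ L) {s : Set Ω} {c : Ω}
    (hc : c ∈ Submodule.span K s) : c ∈ Submodule.span L s := by
  have h := span_pow_field (m := 1) hKL (s := s) (c := c) (by rwa [pow_one])
  rwa [pow_one] at h

/-- windows for numbers `x` linked to the values over a field `K₀`, and affine changes `y` of `x` over `K` -/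
theorem winF (Ev : ℕ → ℕ → ℕ) {σ : Type} [Fintype σ] [DecidableEq σ] (r d d₀ δ τ A B : ℕ) :
    ∃ E : ℕ, ∀ (Ω : Type) [Field Ω] [CharZero Ω] (I : Type) (size : I → ℕ) (val : I → ℕ → σ → Ω),
    Inp Ev size val → ∀ (H : ℕ) (t : I), (H + 2) ^ E ≤ size t →
    ∀ (υ : Type) [Fintype υ] (w : υ → Ω) (T : Finset υ), T.card = τ → Dom A B w T →
    ∀ K₀ : IntermediateField ℚ Ω, FiniteDimensional ℚ K₀ → finrank ℚ K₀ ≤ d₀ →
    ∃ S : Finset ℕ, S.card ≤ τ ∧ ∀ g : Fin r → ℕ, Function.Injective g → (∀ i, 1 ≤ g i ∧ g i ≤ H ∧ g i ∉ S) →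
      ∀ x : Fin r × σ → Ω, (∀ p, ∃ a : K₀, a ≠ 0 ∧
        x p - a * val t (g p.1) p.2 ∈ Submodule.span K₀ (insert 1 (Set.range w))) →
      ∀ K : IntermediateField ℚ Ω, FiniteDimensional ℚ K → finrank ℚ K ≤ d →
      ∀ y : Fin r × σ → Ω, (∀ p, ∃ b : K, b ≠ 0 ∧ y p - b * x p ∈ Submodule.span K (insert 1 (Set.range w))) →
      ∀ P : MvPolynomial (υ ⊕ Fin r × σ) K, P.totalDegree ≤ δ → MvPolynomial.aeval (Sum.elim w y) P = 0 →
      MvPolynomial.aeval (Sum.elim (fun j => MvPolynomial.C (w j)) MvPolynomial.X) P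
        = (0 : MvPolynomial (Fin r × σ) Ω) := by
  classical
  obtain ⟨E, hE⟩ := awh Ev (σ := σ) r (d * d₀) δ τ A B
  refine ⟨E, fun Ω _ _ I size val hval H t ht υ _ w T hT hD K₀ hK₀f hK₀d => ?_⟩
  obtain ⟨S, hS, hwin⟩ := hE Ω I size val hval H t ht υ w T hT hD
  refine ⟨S, hS, fun g hg hgb x hx K hKf hKd y hy P hPd hPv => ?_⟩
  have hK : K ≤ K ⊔ K₀ := le_sup_left
  have hK₀ : K₀ ≤ K ⊔ K₀ := le_sup_right
  set j : K →+* (K ⊔ K₀ : IntermediateField ℚ Ω) :=
    (IntermediateField.inclusion hK : K →+* (K ⊔ K₀ : IntermediateField ℚ Ω)) with hj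
  have hjv : ∀ z : K, ((j z : (K ⊔ K₀ : IntermediateField ℚ Ω)) : Ω) = z := fun z => rfl
  have key : ∀ p : Fin r × σ, ∃ a : (K ⊔ K₀ : IntermediateField ℚ Ω), a ≠ 0 ∧
      y p - a * val t (g p.1) p.2 ∈ Submodule.span (K ⊔ K₀ : IntermediateField ℚ Ω) (insert 1 (Set.range w)) := by
    intro p
    obtain ⟨a, ha, h1⟩ := hx p
    obtain ⟨b, hb, h2⟩ := hy p
    refine ⟨⟨b, hK b.2⟩ * ⟨a, hK₀ a.2⟩, mul_ne_zero ?_ ?_, ?_⟩
    · intro h
      have h' : (b : Ω) = 0 := congrArg (fun z : (K ⊔ K₀ : IntermediateField ℚ Ω) => (z : Ω)) h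
      exact hb (Subtype.ext h')
    · intro h
      have h' : (a : Ω) = 0 := congrArg (fun z : (K ⊔ K₀ : IntermediateField ℚ Ω) => (z : Ω)) h
      exact ha (Subtype.ext h')
    · have h3 : y p - (((⟨b, hK b.2⟩ * ⟨a, hK₀ a.2⟩ : (K ⊔ K₀ : IntermediateField ℚ Ω))) : Ω) * val t (g p.1) p.2 =
          (y p - b * x p) + (⟨b, hK b.2⟩ : (K ⊔ K₀ : IntermediateField ℚ Ω)) • (x p - a * val t (g p.1) p.2) := by
        rw [Algebra.smul_def]
        change y p - ((b : Ω) * (a : Ω)) * val t (g p.1) p.2 =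
          (y p - b * x p) + (b : Ω) * (x p - a * val t (g p.1) p.2)
        ring
      rw [h3]
      exact Submodule.add_mem _ (span_field hK h2) (Submodule.smul_mem _ _ (span_field hK₀ h1))
  have h9 := hwin g hg hgb (K ⊔ K₀) inferInstance
    ((IntermediateField.finrank_sup_le K K₀).trans (Nat.mul_le_mul hKd hK₀d)) y key (MvPolynomial.map j P) (by
      refine le_trans (le_of_eq ?_) hPd
      unfold MvPolynomial.totalDegree
      rw [MvPolynomial.support_map_of_injective _ j.injective]) (by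
      rw [MvPolynomial.aeval_def, MvPolynomial.eval₂_map, ← hPv, MvPolynomial.aeval_def]
      rfl)
  rw [MvPolynomial.aeval_def, MvPolynomial.eval₂_map] at h9
  rw [MvPolynomial.aeval_def]
  exact h9

end Pool.Agent.Y916.Om
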