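import Pool.Agent.Y916.Om.PT
import Pool.Agent.Y921.PW.Iwa

/-!
# `p`-adic logarithms: windows in residue classes and tuples, uniformly in `p`
-/

set_option autoImplicit false

open Module

namespace Pool.Agent.Y916.Om

open Pool.Agent.Y921.PW

/-- the exponents -/
noncomputable def Ev (N Δ : ℕ) : ℕ := (logs_p N Δ).choose

/-- the value of `log (1 + g z)` at `z = p^e / v` -/
noncomputable def lval (p : ℕ) [Fact p.Prime] (A : Type) [NormedField A] [NormedAlgebra ℚ_[p] A] (e v g : ℕ) : A :=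
  algebraMap ℚ_[p] A (evp ((((p ^ e : ℕ) : ℚ) / v : ℚ) : ℚ_[p]) (lgp g))

section

variable {p : ℕ} [Fact p.Prime] {A : Type} [NormedField A] [NormedAlgebra ℚ_[p] A] [CharZero A]

theorem log_inp : InpP Ev p (fun e v g (_ : Unit) => lval p A e v g) := by
  intro N Δ H e v hH hv hve g hg hgb P hP hP0
  have h1 := (logs_p N Δ).choose_spec H p e v hH hv hve g hg hgb
  set en : Fin N × Unit ≃ Fin N := Equiv.prodPUnit (Fin N) with hen
  have h2 : MvPolynomial.rename en P = 0 := by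
    refine h1 _ ((MvPolynomial.totalDegree_rename_le _ _).trans hP) ?_
    rw [MvPolynomial.aeval_rename]
    refine (algebraMap ℚ_[p] A).injective ?_
    rw [map_zero, ← hP0]
    have h3 := MvPolynomial.aeval_algebraMap_apply (A := ℚ_[p]) A
      (fun x : Fin N × Unit => evp ((((p ^ e : ℕ) : ℚ) / v : ℚ) : ℚ_[p]) (lgp (g x.1))) P
    exact h3.symm
  exact MvPolynomial.rename_injective en en.injective (h2.trans (map_zero _).symm)

theorem log_link {L : A → A} (hL : Iw p L) : LinkP p 1 (fun e v g (_ : Unit) => lval p A e v g)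
    (fun n (_ : Unit) => L (n : A)) := by
  intro e v he hv _
  refine ⟨fun _ => L (v : A), fun g _ s => ?_⟩
  have h1 := hL.shift he hv g
  have h2 : L ((v + g * p ^ e : ℕ) : A) - lval p A e v g = L (v : A) := by
    rw [h1, lval]
    ring
  rw [h2]
  exact Submodule.subset_span (Set.mem_insert_of_mem _ ⟨0, rfl⟩)

end

/-- a relation over a number field -/
def RelL {Ω : Type} [Field Ω] [CharZero Ω] {ι : Type} (δ d : ℕ) (V : Submodule ℚ Ω) (x : ι → Ω) : Prop :=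
  ∃ L : IntermediateField ℚ Ω, FiniteDimensional ℚ L ∧ finrank ℚ L ≤ d ∧ ∃ P : MvPolynomial ι Ω, P ≠ 0 ∧
    P.totalDegree ≤ δ ∧ (∀ s, P.coeff s ∈ Submodule.span L (V : Set Ω)) ∧ MvPolynomial.aeval x P = 0

theorem RelL.rel {Ω : Type} [Field Ω] [CharZero Ω] [IsAlgClosed Ω] {ι : Type} [Fintype ι] {δ d : ℕ} {V : Submodule ℚ Ω}
    [Module.Finite ℚ V] {x : ι → Ω} (h : RelL δ d V x) :
    Rel (d ^ d * (δ + 1)) ((V ⊔ 1) ^ (d ^ d * (δ + 1))) x := by
  obtain ⟨L, hLf, hLd, P, hP0, hPd, hPc, hPv⟩ := h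
  exact rel_nf L hLd P hP0 hPd hPc hPv

open Classical in
/-- tuples of integers prime to `p` -/
theorem log_tuples (k δ d D : ℕ) : ∃ c : ℝ, 0 < c ∧ ∃ C : ℝ, 0 ≤ C ∧
    ∀ (p : ℕ) [Fact p.Prime] (A : Type) [NormedField A] [NormedAlgebra ℚ_[p] A] [CharZero A] [IsAlgClosed A] (L : A → A),
    Iw p L → ∀ V : Submodule ℚ A, Module.Finite ℚ V → finrank ℚ V ≤ D → ∀ T : ℕ, 1 ≤ T →
      (((Fintype.piFinset fun _ : Fin k => (Finset.Icc 1 T).filter fun n => ¬ p ∣ n).filter fun n =>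
        RelL δ d V (fun i => L (n i : A))).card : ℝ) ≤ C * p * (T : ℝ) ^ ((k : ℝ) - c) := by
  set m := d ^ d * (δ + 1) with hm
  obtain ⟨c, hc, C, hC, h⟩ := ptuples Ev (σ := Unit) 1 m k ((D + 1) ^ m)
  refine ⟨c, hc, C, hC, fun p _ A _ _ _ _ L hL V hV hVD T hT => ?_⟩
  obtain ⟨hb1, hb2⟩ := big (V := V) hVD m
  have h1 := h A p (Fact.out : p.Prime).two_le _ _ log_inp (log_link hL) ((V ⊔ 1) ^ m) hb1 hb2 T hT
  refine le_trans ?_ h1
  refine Nat.cast_le.2 (Finset.card_le_card fun n hn => ?_)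
  obtain ⟨hn1, hn2⟩ := Finset.mem_filter.1 hn
  refine Finset.mem_filter.2 ⟨hn1, ?_⟩
  exact hn2.rel.reindex (Equiv.prodPUnit (Fin k))

end Pool.Agent.Y916.Om
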