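import Pool.Agent.Y916.Om.Bas
import Pool.Agent.Y916.Om.Log

/-!
# Boxes: at most `C H^(k-1)` exceptional `k`-tuples
-/

set_option autoImplicit false

open Module

namespace Pool.Agent.Y916.Om

variable {Ω : Type} [Field Ω] [CharZero Ω]

/-- a relation of degree at most `δ` whose coefficients have degree at most `e` in the constants `w` over a number field of
degree at most `d` -/
def BadW (d δ e : ℕ) {υ κ : Type} (w : υ → Ω) (y : κ → Ω) : Prop :=
  ∃ K : IntermediateField ℚ Ω, FiniteDimensional ℚ K ∧ finrank ℚ K ≤ d ∧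
    Rel δ ((Submodule.span K (insert 1 (Set.range w)) ^ e : Submodule K Ω).restrictScalars ℚ) y

theorem Rel.mono {δ : ℕ} {V V' : Submodule ℚ Ω} (h : V ≤ V') {σ : Type} {x : σ → Ω} (hx : Rel δ V x) : Rel δ V' x := by
  obtain ⟨P, hP0, hPd, hPc, hPv⟩ := hx
  exact ⟨P, hP0, hPd, fun s => h (hPc s), hPv⟩

theorem res_pow {K : IntermediateField ℚ Ω} (V : Submodule K Ω) (m : ℕ) :
    (V.restrictScalars ℚ) ^ m ≤ (V ^ m).restrictScalars ℚ := by
  induction m with
  | zero =>
    rw [pow_zero, pow_zero]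
    rintro c hc
    obtain ⟨r, rfl⟩ := Submodule.mem_one.1 hc
    have h : algebraMap ℚ Ω r ∈ (1 : Submodule K Ω) := by
      rw [IsScalarTower.algebraMap_apply ℚ K Ω]
      exact Submodule.algebraMap_mem _
    exact h
  | succ m ih =>
    rw [pow_succ, pow_succ]
    refine Submodule.mul_le.2 fun a ha b hb => ?_
    have h1 : a ∈ V ^ m := ih ha
    have h2 : b ∈ V := hb
    have h : a * b ∈ V ^ m * V := Submodule.mul_mem_mul h1 h2
    exact h

theorem res_mul {K : IntermediateField ℚ Ω} {V W : Submodule K Ω} {V' W' : Submodule ℚ Ω}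
    (hV : V' ≤ V.restrictScalars ℚ) (hW : W' ≤ W.restrictScalars ℚ) : V' * W' ≤ (V * W).restrictScalars ℚ :=
  Submodule.mul_le.2 fun _ ha _ hb => Submodule.mul_mem_mul (hV ha) (hW hb)

theorem BadW.mono {d δ e : ℕ} {υ υ' κ : Type} {w : υ → Ω} {w' : υ' → Ω} {y : κ → Ω} (h : BadW d δ e w y)
    (hw : ∀ j, w j = 1 ∨ ∃ j', w' j' = w j) : BadW d δ e w' y := by
  obtain ⟨K, h1, h2, h3⟩ := h
  refine ⟨K, h1, h2, h3.mono ?_⟩
  have h4 : Submodule.span K (insert (1 : Ω) (Set.range w)) ≤ Submodule.span K (insert (1 : Ω) (Set.range w')) := by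
    refine Submodule.span_le.2 ?_
    rintro _ (rfl | ⟨j, rfl⟩)
    · exact Submodule.subset_span (Set.mem_insert _ _)
    · rcases hw j with h | ⟨j', h⟩
      · rw [h]; exact Submodule.subset_span (Set.mem_insert _ _)
      · rw [← h]; exact Submodule.subset_span (Set.mem_insert_of_mem _ ⟨j', rfl⟩)
  exact fun c hc => pow_le_pow_left' h4 e hc

/-- splitting of the variables -/
theorem BadW.split {d δ e : ℕ} {υ κ κ' : Type} [Fintype κ] [Fintype κ'] {w : υ → Ω} {y : κ → Ω} {z : κ' → Ω}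
    (h : BadW d δ e w (Sum.elim y z)) : BadW d δ e w y ∨ BadW d δ (e + δ) (Sum.elim w y) z := by
  obtain ⟨K, h1, h2, h3⟩ := h
  rcases h3.split with h4 | h4
  · exact Or.inl ⟨K, h1, h2, h4⟩
  · refine Or.inr ⟨K, h1, h2, h4.mono ?_⟩
    rw [pow_add]
    refine res_mul ?_ ?_
    · refine fun c hc => pow_le_pow_left' (Submodule.span_mono ?_) e hc
      rintro _ (rfl | ⟨j, rfl⟩)
      · exact Set.mem_insert _ _
      · exact Set.mem_insert_of_mem _ ⟨Sum.inl j, rfl⟩
    · intro c hc
      refine span_pow_mono (s := Set.range fun o : Option κ => o.elim 1 y) ?_ hc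
      rintro _ ⟨(_ | j), rfl⟩
      · exact Submodule.subset_span (Set.mem_insert _ _)
      · exact Submodule.subset_span (Set.mem_insert_of_mem _ ⟨Sum.inr j, rfl⟩)

/-- affine changes of the numbers -/
theorem BadW.affine {d δ e : ℕ} {υ κ : Type} [Fintype κ] {w : υ → Ω} {y x : κ → Ω} (K : IntermediateField ℚ Ω)
    (hK : FiniteDimensional ℚ K) (hd : finrank ℚ K ≤ d)
    (hx : ∀ i, ∃ a : K, a ≠ 0 ∧ x i - a * y i ∈ Submodule.span K (insert 1 (Set.range w)))
    (h : Rel δ ((Submodule.span K (insert 1 (Set.range w)) ^ e : Submodule K Ω).restrictScalars ℚ) x) :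
    BadW d δ (e + δ) w y := by
  classical
  obtain ⟨P, hP0, hPd, hPc, hPv⟩ := h
  choose a ha hxa using hx
  set V : Submodule K Ω := Submodule.span K (insert 1 (Set.range w)) with hV
  have h1 : (1 : Ω) ∈ V := Submodule.subset_span (Set.mem_insert _ _)
  set v : κ → Ω := fun i => x i - a i * y i with hv
  set L : κ → MvPolynomial κ Ω := fun i => MvPolynomial.C ((a i : K) : Ω) * MvPolynomial.X i + MvPolynomial.C (v i) with hL
  have hLD : ∀ i, DC 1 (V.restrictScalars ℚ) (L i) := by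
    intro i
    refine ⟨?_, fun s => ?_⟩
    · refine (MvPolynomial.totalDegree_add _ _).trans (max_le ?_ ?_)
      · refine (MvPolynomial.totalDegree_mul _ _).trans ?_
        rw [MvPolynomial.totalDegree_C, MvPolynomial.totalDegree_X]
      · rw [MvPolynomial.totalDegree_C]
        exact Nat.zero_le _
    · rw [hL]
      simp only [MvPolynomial.coeff_add, MvPolynomial.coeff_C_mul, MvPolynomial.coeff_X, MvPolynomial.coeff_C]
      refine Submodule.add_mem _ ?_ ?_
      · split_ifs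
        · have := V.smul_mem (a i) h1
          exact this
        · rw [mul_zero]
          exact Submodule.zero_mem _
      · split_ifs
        · exact hxa i
        · exact Submodule.zero_mem _
  have hD := DC.subst' (V := (V ^ e).restrictScalars ℚ) (W := V.restrictScalars ℚ) h1 L hLD (P := P) ⟨hPd, hPc⟩
  refine ⟨K, hK, hd, MvPolynomial.aeval L P, ?_, hD.1, fun s => ?_, ?_⟩
  · intro h0
    exact hP0 (shift_injh K a v ha (h0.trans (map_zero _).symm))
  · rw [pow_add]
    exact res_mul (V := V ^ e) (W := V ^ δ) le_rfl (res_pow V δ) (hD.2 s)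
  · rw [MvPolynomial.comp_aeval_apply]
    have h3 : (fun i => MvPolynomial.aeval y (L i)) = x := by
      funext i
      simp [hL, hv]
    rw [h3]
    exact hPv

/-- lifting of coefficients -/
theorem lift_pow {K : IntermediateField ℚ Ω} {υ : Type} (w : υ → Ω) (e : ℕ) {c : Ω}
    (hc : c ∈ (Submodule.span K (insert (1 : Ω) (Set.range w))) ^ e) :
    ∃ p : MvPolynomial υ K, p.totalDegree ≤ e ∧ MvPolynomial.aeval w p = c := by
  induction e generalizing c with
  | zero =>
    rw [pow_zero] at hc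
    obtain ⟨r, rfl⟩ := Submodule.mem_one.1 hc
    exact ⟨MvPolynomial.C r, by rw [MvPolynomial.totalDegree_C], by rw [MvPolynomial.aeval_C]⟩
  | succ e ih =>
    rw [pow_succ] at hc
    refine Submodule.mul_induction_on hc ?_ ?_
    · intro a ha b hb
      obtain ⟨p, hp, hpa⟩ := ih ha
      have hq : ∃ q : MvPolynomial υ K, q.totalDegree ≤ 1 ∧ MvPolynomial.aeval w q = b := by
        refine Submodule.span_induction (p := fun b _ => ∃ q : MvPolynomial υ K, q.totalDegree ≤ 1 ∧
          MvPolynomial.aeval w q = b) ?_ ?_ ?_ ?_ hb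
        · rintro _ (rfl | ⟨j, rfl⟩)
          · exact ⟨1, by simp, by simp⟩
          · exact ⟨MvPolynomial.X j, by rw [MvPolynomial.totalDegree_X], by rw [MvPolynomial.aeval_X]⟩
        · exact ⟨0, by simp, by simp⟩
        · rintro x y _ _ ⟨q, hq, rfl⟩ ⟨q', hq', rfl⟩
          exact ⟨q + q', (MvPolynomial.totalDegree_add _ _).trans (max_le hq hq'), map_add _ _ _⟩
        · rintro k x _ ⟨q, hq, rfl⟩
          exact ⟨k • q, (MvPolynomial.totalDegree_smul_le _ _).trans hq, map_smul _ _ _⟩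
      obtain ⟨q, hq, hqb⟩ := hq
      exact ⟨p * q, (MvPolynomial.totalDegree_mul _ _).trans (add_le_add hp hq), by rw [map_mul, hpa, hqb]⟩
    · rintro x y ⟨p, hp, rfl⟩ ⟨p', hp', rfl⟩
      exact ⟨p + p', (MvPolynomial.totalDegree_add _ _).trans (max_le hp hp'), map_add _ _ _⟩

/-- windows in terms of `BadW` -/
theorem win1 (Ev : ℕ → ℕ → ℕ) {σ : Type} [Fintype σ] [DecidableEq σ] (d δ e τ A B : ℕ) :
    ∃ E : ℕ, ∀ (Ω : Type) [Field Ω] [CharZero Ω] (I : Type) (size : I → ℕ) (val : I → ℕ → σ → Ω),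
    Inp Ev size val → ∀ (H : ℕ) (t : I), (H + 2) ^ E ≤ size t →
    ∀ (υ : Type) [Fintype υ] (w : υ → Ω) (T : Finset υ), T.card = τ → Dom A B w T →
    ∃ S : Finset ℕ, S.card ≤ τ ∧ ∀ g : ℕ, 1 ≤ g → g ≤ H → g ∉ S → ¬ BadW d δ e w (val t g) := by
  classical
  obtain ⟨E, hE⟩ := awh Ev (σ := σ) 1 d (e + δ) τ A B
  refine ⟨E, fun Ω _ _ I size val hval H t ht υ _ w T hT hD => ?_⟩
  obtain ⟨S, hS, h⟩ := hE Ω I size val hval H t ht υ w T hT hD
  refine ⟨S, hS, fun g hg1 hg2 hgS hbad => ?_⟩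
  obtain ⟨K, hK, hKd, P, hP0, hPd, hPc, hPv⟩ := hbad
  choose p hpd hpv using fun s => lift_pow w e (hPc s)
  set P' : MvPolynomial (υ ⊕ Fin 1 × σ) K := ∑ s ∈ P.support, MvPolynomial.rename Sum.inl (p s) *
    MvPolynomial.rename (fun i => Sum.inr ((0 : Fin 1), i)) (MvPolynomial.monomial s (1 : K)) with hP'
  have hdeg : P'.totalDegree ≤ e + δ := by
    refine MvPolynomial.totalDegree_finsetSum_le fun s hs => ?_
    refine (MvPolynomial.totalDegree_mul _ _).trans (add_le_add ?_ ?_)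
    · exact (MvPolynomial.totalDegree_rename_le _ _).trans (hpd s)
    · refine (MvPolynomial.totalDegree_rename_le _ _).trans ?_
      refine (MvPolynomial.totalDegree_monomial_le _ _).trans ?_
      exact (MvPolynomial.le_totalDegree hs).trans hPd
  have hval' : ∀ (R : Type) [CommRing R] [Algebra Ω R] (z : Fin 1 × σ → R),
      MvPolynomial.aeval (Sum.elim (fun j => algebraMap Ω R (w j)) z) P' =
        MvPolynomial.aeval (fun i => z (0, i)) P := by
    intro R _ _ z
    rw [hP', map_sum]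
    conv_rhs => rw [MvPolynomial.as_sum P, map_sum]
    refine Finset.sum_congr rfl fun s _ => ?_
    rw [map_mul, MvPolynomial.aeval_rename, MvPolynomial.aeval_rename, MvPolynomial.aeval_monomial,
      MvPolynomial.aeval_monomial, map_one, one_mul]
    congr 1
    have h1 : (Sum.elim (fun j => algebraMap Ω R (w j)) z ∘ Sum.inl) = fun j => algebraMap Ω R (w j) := rfl
    rw [h1, ← hpv s]
    exact MvPolynomial.aeval_algebraMap_apply R w (p s)
  have h1 := h (fun _ => g) (fun i j _ => Subsingleton.elim i j) (fun _ => ⟨hg1, hg2, hgS⟩) K hK hKd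
    (fun q => val t g q.2) (fun q => ⟨1, one_ne_zero, by simp⟩) P' hdeg (by
      have := hval' Ω fun q => val t g q.2
      exact this.trans hPv)
  have h2 := hval' (MvPolynomial (Fin 1 × σ) Ω) MvPolynomial.X
  have h3 : (fun j => algebraMap Ω (MvPolynomial (Fin 1 × σ) Ω) (w j)) = fun j => MvPolynomial.C (w j) := rfl
  rw [h3, h1] at h2
  have h4 : MvPolynomial.aeval (fun i : σ => (MvPolynomial.X ((0 : Fin 1), i) : MvPolynomial (Fin 1 × σ) Ω)) P =
      MvPolynomial.rename (fun i => ((0 : Fin 1), i)) P := by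
    rw [← MvPolynomial.aeval_X_left_apply (MvPolynomial.rename (fun i => ((0 : Fin 1), i)) P),
      MvPolynomial.aeval_rename]
    rfl
  rw [h4] at h2
  exact hP0 (MvPolynomial.rename_injective (fun i : σ => ((0 : Fin 1), i)) (fun i j hij => (Prod.mk.inj hij).2)
    (h2.symm.trans (map_zero _).symm))

/-- the link between `val` and `x`: `τ₀` constants for every index -/
def LinkI {I σ : Type} (τ₀ : ℕ) (val x : I → ℕ → σ → Ω) : Prop :=
  ∀ i, ∃ w : Fin τ₀ → Ω, ∀ g : ℕ, 1 ≤ g → ∀ s, x i g s - val i g s ∈ Submodule.span ℚ (insert 1 (Set.range w))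

/-- windows for `x` -/
theorem win2 (Ev : ℕ → ℕ → ℕ) {σ : Type} [Fintype σ] [DecidableEq σ] (d δ e τ τ₀ A B : ℕ) :
    ∃ E : ℕ, ∀ (Ω : Type) [Field Ω] [CharZero Ω] (I : Type) (size : I → ℕ) (val x : I → ℕ → σ → Ω),
    Inp Ev size val → LinkI τ₀ val x → ∀ (H : ℕ) (t : I), (H + 2) ^ E ≤ size t →
    ∀ (υ : Type) [Fintype υ] (w : υ → Ω) (T : Finset υ), T.card = τ → Dom A B w T →
    ∃ S : Finset ℕ, S.card ≤ τ + τ₀ ∧ ∀ g : ℕ, 1 ≤ g → g ≤ H → g ∉ S → ¬ BadW d δ e w (x t g) := by
  classical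
  obtain ⟨E, hE⟩ := win1 Ev (σ := σ) d δ (e + δ) (τ + τ₀) A B
  refine ⟨E, fun Ω _ _ I size val x hval hlink H t ht υ _ w T hT hD => ?_⟩
  obtain ⟨w₀, hw₀⟩ := hlink t
  set w' : υ ⊕ Fin τ₀ → Ω := Sum.elim w w₀ with hw'
  have hD' : Dom A B w' (T.disjSum Finset.univ) := by
    refine hD.of w' _ (fun j hj => ⟨Sum.inl j, Finset.inl_mem_disjSum.2 hj, rfl⟩) ?_
    rintro (j | j)
    · exact Or.inr ⟨j, rfl⟩
    · exact Or.inl (Finset.inr_mem_disjSum.2 (Finset.mem_univ _))
  obtain ⟨S, hS, h⟩ := hE Ω I size val hval H t ht (υ ⊕ Fin τ₀) w' (T.disjSum Finset.univ)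
    (by rw [Finset.card_disjSum, hT, Finset.card_univ, Fintype.card_fin]) hD'
  refine ⟨S, hS, fun g hg1 hg2 hgS hbad => h g hg1 hg2 hgS ?_⟩
  have hbad' : BadW d δ e w' (x t g) := hbad.mono fun j => Or.inr ⟨Sum.inl j, rfl⟩
  obtain ⟨K, h1, h2, h3⟩ := hbad'
  refine BadW.affine K h1 h2 (fun s => ⟨1, one_ne_zero, ?_⟩) h3
  have h4 := hw₀ g hg1 s
  have h5 : Submodule.span ℚ (insert (1 : Ω) (Set.range w₀)) ≤
      (Submodule.span K (insert (1 : Ω) (Set.range w'))).restrictScalars ℚ := by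
    refine Submodule.span_le.2 ?_
    rintro _ (rfl | ⟨j, rfl⟩)
    · exact Submodule.subset_span (Set.mem_insert _ _)
    · exact Submodule.subset_span (Set.mem_insert_of_mem _ ⟨Sum.inr j, rfl⟩)
  have h6 := h5 h4
  simpa using h6

open Classical in
/-- **Boxes** -/
theorem box (Ev : ℕ → ℕ → ℕ) {σ : Type} [Fintype σ] [DecidableEq σ] (d δ τ₀ A B k : ℕ) : ∀ e τ : ℕ,
    ∃ E : ℕ, ∀ (Ω : Type) [Field Ω] [CharZero Ω] (I : Type) (size : I → ℕ) (val x : I → ℕ → σ → Ω),
    Inp Ev size val → LinkI τ₀ val x → ∀ (H : ℕ) (t : Fin k → I), (∀ i, (H + 2) ^ E ≤ size (t i)) →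
    ∀ (υ : Type) [Fintype υ] (w : υ → Ω) (T : Finset υ), T.card = τ → Dom A B w T →
    ((Fintype.piFinset fun _ : Fin k => Finset.Icc 1 H).filter fun g =>
      BadW d δ e w (fun q : Fin k × σ => x (t q.1) (g q.1) q.2)).card ≤
        (k * (τ + τ₀) + Fintype.card σ * k.choose 2) * H ^ (k - 1) := by
  induction k with
  | zero =>
    intro e τ
    refine ⟨0, fun Ω _ _ I size val x _ _ H t _ υ _ w T _ _ => ?_⟩
    rw [Finset.filter_false_of_mem, Finset.card_empty]
    · exact Nat.zero_le _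
    · rintro g _ ⟨K, -, -, P, hP0, -, -, hPv⟩
      obtain ⟨a, rfl⟩ : ∃ a, P = MvPolynomial.C a := ⟨_, MvPolynomial.eq_C_of_isEmpty P⟩
      rw [MvPolynomial.aeval_C] at hPv
      apply hP0
      have : a = 0 := hPv
      rw [this, map_zero]
  | succ k ih =>
    intro e τ
    obtain ⟨E₁, h₁⟩ := ih e τ
    obtain ⟨E₂, h₂⟩ := win2 Ev (σ := σ) d δ (e + δ) (τ + k * Fintype.card σ) τ₀ A B
    refine ⟨max E₁ E₂, fun Ω _ _ I size val x hval hlink H t ht υ _ w T hT hD => ?_⟩
    have ht1 : ∀ i, (H + 2) ^ E₁ ≤ size (t i) := fun i =>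
      (Nat.pow_le_pow_right (by omega) (le_max_left _ _)).trans (ht i)
    have ht2 : ∀ i, (H + 2) ^ E₂ ≤ size (t i) := fun i =>
      (Nat.pow_le_pow_right (by omega) (le_max_right _ _)).trans (ht i)
    set t' : Fin k → I := fun i => t i.succ with ht'
    set y : (Fin k → ℕ) → Fin k × σ → Ω := fun g q => x (t' q.1) (g q.1) q.2 with hy
    set bad₁ := (Fintype.piFinset fun _ : Fin k => Finset.Icc 1 H).filter fun g => BadW d δ e w (y g) with hbad₁
    set bad₂ : (Fin k → ℕ) → Finset ℕ := fun g => (Finset.Icc 1 H).filter fun n =>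
      BadW d δ (e + δ) (Sum.elim w (y g)) (x (t 0) n) with hbad₂
    have hsub : ((Fintype.piFinset fun _ : Fin (k + 1) => Finset.Icc 1 H).filter fun g =>
        BadW d δ e w (fun q : Fin (k + 1) × σ => x (t q.1) (g q.1) q.2)) ⊆
        ((Finset.Icc 1 H ×ˢ bad₁).image fun p => (Fin.cons p.1 p.2 : Fin (k + 1) → ℕ)) ∪
        (((Fintype.piFinset fun _ : Fin k => Finset.Icc 1 H).sigma bad₂).image
          fun p => (Fin.cons p.2 p.1 : Fin (k + 1) → ℕ)) := by
      intro g hg
      obtain ⟨hg1, hg2⟩ := Finset.mem_filter.1 hg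
      rw [Fintype.mem_piFinset] at hg1
      set en : Fin k × σ ⊕ σ ≃ Fin (k + 1) × σ :=
        { toFun := Sum.elim (fun p => (p.1.succ, p.2)) (fun s => (0, s))
          invFun := fun p => Fin.cases (Sum.inr p.2) (fun i => Sum.inl (i, p.2)) p.1
          left_inv := by rintro (⟨i, s⟩ | s) <;> simp
          right_inv := by
            rintro ⟨i, s⟩
            refine Fin.cases ?_ (fun i => ?_) i <;> simp } with he
      have h4 : (fun j => x (t (en j).1) (g (en j).1) (en j).2) =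
          Sum.elim (y fun i => g i.succ) (x (t 0) (g 0)) := by
        funext j
        rcases j with ⟨i, s⟩ | s
        · rfl
        · rfl
      have h3 : BadW d δ e w (Sum.elim (y fun i => g i.succ) (x (t 0) (g 0))) := by
        obtain ⟨K, hK1, hK2, hK3⟩ := hg2
        refine ⟨K, hK1, hK2, ?_⟩
        rw [← h4]
        exact hK3.reindex en
      have htail : (fun i => g i.succ) ∈ Fintype.piFinset fun _ : Fin k => Finset.Icc 1 H := by
        rw [Fintype.mem_piFinset]
        exact fun i => hg1 i.succ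
      rcases h3.split with h5 | h5
      · refine Finset.mem_union_left _ (Finset.mem_image.2 ⟨(g 0, fun i => g i.succ), ?_, ?_⟩)
        · exact Finset.mem_product.2 ⟨hg1 0, Finset.mem_filter.2 ⟨htail, h5⟩⟩
        · funext i
          refine Fin.cases ?_ (fun i => ?_) i <;> simp
      · refine Finset.mem_union_right _ (Finset.mem_image.2 ⟨⟨fun i => g i.succ, g 0⟩, ?_, ?_⟩)
        · exact Finset.mem_sigma.2 ⟨htail, Finset.mem_filter.2 ⟨hg1 0, h5⟩⟩
        · funext i
          refine Fin.cases ?_ (fun i => ?_) i <;> simp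
    have hb1 : bad₁.card ≤ (k * (τ + τ₀) + Fintype.card σ * k.choose 2) * H ^ (k - 1) :=
      h₁ Ω I size val x hval hlink H t' (fun i => ht1 i.succ) υ w T hT hD
    have hb2 : ∀ g, (bad₂ g).card ≤ τ + k * Fintype.card σ + τ₀ := by
      intro g
      obtain ⟨S, hS, h⟩ := h₂ Ω I size val x hval hlink H (t 0) (ht2 0) (υ ⊕ Fin k × σ) (Sum.elim w (y g))
        (T.disjSum Finset.univ)
        (by rw [Finset.card_disjSum, hT, Finset.card_univ, Fintype.card_prod, Fintype.card_fin])
        (hD.of _ _ (fun j hj => ⟨Sum.inl j, Finset.inl_mem_disjSum.2 hj, rfl⟩) (by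
          rintro (j | j)
          · exact Or.inr ⟨j, rfl⟩
          · exact Or.inl (Finset.inr_mem_disjSum.2 (Finset.mem_univ _))))
      refine (Finset.card_le_card fun n hn => ?_).trans hS
      obtain ⟨hn1, hn2⟩ := Finset.mem_filter.1 hn
      obtain ⟨hn3, hn4⟩ := Finset.mem_Icc.1 hn1
      by_contra hcon
      exact h n hn3 hn4 hcon hn2
    refine (Finset.card_le_card hsub).trans ((Finset.card_union_le _ _).trans
      ((add_le_add Finset.card_image_le Finset.card_image_le).trans ?_))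
    rw [Finset.card_product, Finset.card_sigma, Nat.card_Icc, Nat.add_sub_cancel]
    have h6 : ∑ g ∈ Fintype.piFinset (fun _ : Fin k => Finset.Icc 1 H), (bad₂ g).card ≤
        H ^ k * (τ + k * Fintype.card σ + τ₀) := by
      refine (Finset.sum_le_card_nsmul _ _ _ fun g _ => hb2 g).trans (le_of_eq ?_)
      rw [smul_eq_mul, Fintype.card_piFinset]
      simp
    have h7 : H * bad₁.card ≤ (k * (τ + τ₀) + Fintype.card σ * k.choose 2) * H ^ k := by
      rcases Nat.eq_zero_or_pos k with rfl | hk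
      · have h8 : bad₁.card = 0 := by
          have h9 := hb1
          simp only [zero_mul, Nat.choose_zero_succ, mul_zero, add_zero, Nat.le_zero] at h9
          exact h9
        rw [h8, mul_zero]
        exact Nat.zero_le _
      · calc H * bad₁.card ≤ H * ((k * (τ + τ₀) + Fintype.card σ * k.choose 2) * H ^ (k - 1)) :=
              Nat.mul_le_mul_left _ hb1
          _ = (k * (τ + τ₀) + Fintype.card σ * k.choose 2) * (H ^ (k - 1) * H) := by ring
          _ = _ := by rw [← pow_succ, Nat.sub_add_cancel hk]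
    refine (add_le_add h7 h6).trans (le_of_eq ?_)
    rw [Nat.add_sub_cancel, Nat.choose_succ_succ' k 1, Nat.choose_one_right]
    ring

end Pool.Agent.Y916.Om
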