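import Pool.Agent.Y916.Om.AH

/-!
# Constants: transcendence bases
-/

set_option autoImplicit false

open Module

namespace Pool.Agent.Y916.Om

variable {Ω : Type} [Field Ω] [CharZero Ω]

/-- more constants -/
theorem Dom.of {υ υ' : Type} {A B : ℕ} {u : υ → Ω} {T : Finset υ} (h : Dom A B u T) (v : υ' → Ω) (T' : Finset υ')
    (h1 : ∀ j ∈ T, ∃ j' ∈ T', v j' = u j) (h2 : ∀ j', j' ∈ T' ∨ ∃ j, v j' = u j)
    [Finite υ] : Dom A B v T' := by
  intro K W hW hW1 hWT Δ
  have hle : W ⊔ Submodule.span K (Set.range v) ≤ W ⊔ Submodule.span K (Set.range u) := by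
    refine sup_le le_sup_left (Submodule.span_le.2 ?_)
    rintro _ ⟨j', rfl⟩
    rcases h2 j' with h3 | ⟨j, hj⟩
    · exact Submodule.mem_sup_left (hWT j' h3)
    · rw [hj]
      exact Submodule.mem_sup_right (Submodule.subset_span ⟨j, rfl⟩)
  have h3 : FiniteDimensional K ((W ⊔ Submodule.span K (Set.range u)) ^ Δ : Submodule K Ω) :=
    Pool.Agent.Y916.Hil.fin_pow (hW.sup (Submodule.fg_span (Set.finite_range u))) _
  refine (Submodule.finrank_mono (pow_le_pow_left' hle Δ)).trans (h K W hW hW1 (fun j hj => ?_) Δ)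
  obtain ⟨j', hj', hjj⟩ := h1 j hj
  rw [← hjj]
  exact hWT j' hj'

/-- a transcendence basis among the constants -/
theorem exists_base {υ : Type} [Fintype υ] (u : υ → Ω) :
    ∃ T : Finset υ, (T.card : Cardinal) ≤ Algebra.trdeg ℚ (IntermediateField.adjoin ℚ (Set.range u)) ∧
      ∀ j, IsAlgebraic (Algebra.adjoin ℚ (u '' (T : Set υ))) (u j) := by
  classical
  obtain ⟨B, hB⟩ := (AlgebraicIndependent.matroid ℚ Ω).exists_isBasis (Set.range u) (Set.subset_univ _)
  obtain ⟨hB1, hB2, hB3⟩ := AlgebraicIndependent.matroid_isBasis_iff.1 hB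
  have hBfin : B.Finite := (Set.finite_range u).subset hB2
  choose f hf using fun b : B => hB2 b.2
  have hfinj : Function.Injective f := fun b b' h => Subtype.ext (by rw [← hf b, ← hf b', h])
  haveI : Fintype B := hBfin.fintype
  refine ⟨Finset.univ.image f, ?_, ?_⟩
  · rw [Finset.card_image_of_injective _ hfinj, Finset.card_univ]
    set F0 := IntermediateField.adjoin ℚ (Set.range u) with hF0
    set x : B → F0 := fun b => ⟨b, IntermediateField.subset_adjoin ℚ _ (hB2 b.2)⟩ with hx
    have h1 : AlgebraicIndependent ℚ x := AlgebraicIndependent.of_comp (F0.val) hB1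
    have h2 := h1.cardinalMk_le_trdeg
    rwa [Cardinal.mk_fintype] at h2
  · have h3 : u '' ((Finset.univ.image f : Finset υ) : Set υ) = B := by
      ext z
      simp only [Finset.coe_image, Finset.coe_univ, Set.image_univ, Set.mem_image, Set.mem_range]
      constructor
      · rintro ⟨_, ⟨b, rfl⟩, rfl⟩
        rw [hf b]
        exact b.2
      · intro hz
        exact ⟨f ⟨z, hz⟩, ⟨⟨z, hz⟩, rfl⟩, hf ⟨z, hz⟩⟩
    intro j
    rw [h3]
    exact hB3 _ ⟨j, rfl⟩

end Pool.Agent.Y916.Om
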