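import Pool.Agent.Y916.Om.AW

/-!
# Windows for arbitrary families: constants of bounded transcendence degree, one exceptional set for all number fields

The variant (helper118) of `aw`: if the constants are algebraic over `ℚ(w_T)`, there are at most `|T|` exceptional `g`,
the same for all the number fields of degree at most `d`.
-/

set_option autoImplicit false

open Module
open scoped Pointwise

namespace Pool.Agent.Y916.Om

variable {Ω : Type} [Field Ω] [CharZero Ω]

open Pool.Agent.Y916.Hil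

theorem span_pow_mono {K : IntermediateField ℚ Ω} {s : Set Ω} {W : Submodule K Ω} (hs : ∀ z ∈ s, z ∈ W) {m : ℕ} {c : Ω}
    (hc : c ∈ (Submodule.span ℚ s) ^ m) : c ∈ W ^ m := by
  have h1 : (Submodule.span K s) ^ m ≤ W ^ m := pow_le_pow_left' (Submodule.span_le.2 hs) m
  refine h1 ?_
  rw [Submodule.span_pow] at hc ⊢
  refine Submodule.span_induction (p := fun c _ => c ∈ Submodule.span K (s ^ m)) ?_ ?_ ?_ ?_ hc
  · intro x hx
    exact Submodule.subset_span hx
  · exact Submodule.zero_mem _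
  · intro x y _ _ hx hy
    exact Submodule.add_mem _ hx hy
  · intro k x _ hx
    have : k • x = (algebraMap ℚ K k) • x := by
      rw [Algebra.smul_def, Algebra.smul_def]
      rfl
    rw [this]
    exact Submodule.smul_mem _ _ hx

/-- elements of `ℚ[s]` are in a power of the span -/
theorem adjoin_pow {s : Set Ω} {c : Ω} (hc : c ∈ Algebra.adjoin ℚ s) :
    ∃ m : ℕ, c ∈ (Submodule.span ℚ (insert 1 s)) ^ m := by
  have h1 : (1 : Ω) ∈ Submodule.span ℚ (insert 1 s) := Submodule.subset_span (Set.mem_insert _ _)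
  refine Algebra.adjoin_induction (p := fun c _ => ∃ m : ℕ, c ∈ (Submodule.span ℚ (insert 1 s)) ^ m) ?_ ?_ ?_ ?_ hc
  · intro x hx
    exact ⟨1, by rw [pow_one]; exact Submodule.subset_span (Set.mem_insert_of_mem _ hx)⟩
  · intro r
    exact ⟨0, by rw [pow_zero]; exact Submodule.algebraMap_mem r⟩
  · rintro x y _ _ ⟨m, hm⟩ ⟨m', hm'⟩
    exact ⟨max m m', Submodule.add_mem _ (Pool.Agent.Y916.Hil.pow_le_pow h1 (le_max_left _ _) hm)
      (Pool.Agent.Y916.Hil.pow_le_pow h1 (le_max_right _ _) hm')⟩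
  · rintro x y _ _ ⟨m, hm⟩ ⟨m', hm'⟩
    exact ⟨m + m', by rw [pow_add]; exact Submodule.mul_mem_mul hm hm'⟩

/-- algebraic constants increase the Hilbert functions only by constant factors -/
theorem dom {υ : Type*} [DecidableEq υ] (w : υ → Ω) (T : Finset υ)
    (hT : ∀ j, IsAlgebraic (Algebra.adjoin ℚ (w '' (T : Set υ))) (w j)) (U : Finset υ) :
    ∃ A B : ℕ, ∀ (K : IntermediateField ℚ Ω) (W : Submodule K Ω), W.FG → (1 : Ω) ∈ W → (∀ j ∈ T, w j ∈ W) → ∀ Δ : ℕ,
      finrank K ((W ⊔ Submodule.span K (w '' (U : Set υ))) ^ Δ : Submodule K Ω) ≤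
        A * finrank K (W ^ (B * Δ) : Submodule K Ω) := by
  induction U using Finset.induction_on with
  | empty =>
    refine ⟨1, 1, fun K W _ _ _ Δ => ?_⟩
    rw [Finset.coe_empty, Set.image_empty, Submodule.span_empty, sup_bot_eq, one_mul, one_mul]
  | insert j U hj ih =>
    obtain ⟨A, B, hAB⟩ := ih
    obtain ⟨p, hp0, hp⟩ := hT j
    choose m hm using fun i => adjoin_pow (p.coeff i).2
    set M := ∑ i ∈ Finset.range (p.natDegree + 1), m i with hM
    refine ⟨p.natDegree * A, B * (M + 1), fun K W hW h1 hwT Δ => ?_⟩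
    have hW' : (W ⊔ Submodule.span K (w '' (U : Set υ))).FG :=
      hW.sup (Submodule.fg_span (U.finite_toSet.image w))
    have h1' : (1 : Ω) ∈ W ⊔ Submodule.span K (w '' (U : Set υ)) := Submodule.mem_sup_left h1
    have hc : ∀ i ≤ p.natDegree, ((p.coeff i : Algebra.adjoin ℚ (w '' (T : Set υ))) : Ω) ∈
        (W ⊔ Submodule.span K (w '' (U : Set υ))) ^ M := by
      intro i hi
      have h2 : m i ≤ M := Finset.single_le_sum (f := m) (fun _ _ => Nat.zero_le _) (Finset.mem_range.2 (by omega))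
      refine Pool.Agent.Y916.Hil.pow_le_pow h1' h2 (span_pow_mono ?_ (hm i))
      intro z hz
      rcases hz with rfl | ⟨x, hx, rfl⟩
      · exact h1'
      · exact Submodule.mem_sup_left (hwT x (Finset.mem_coe.1 hx))
    have hlead : ((p.coeff p.natDegree : Algebra.adjoin ℚ (w '' (T : Set υ))) : Ω) ≠ 0 := by
      intro h
      have : p.coeff p.natDegree = 0 := Subtype.ext h
      exact hp0 (Polynomial.leadingCoeff_eq_zero.1 this)
    have hroot : ∑ i ∈ Finset.range (p.natDegree + 1), ((p.coeff i : Algebra.adjoin ℚ (w '' (T : Set υ))) : Ω) * w j ^ i = 0 := by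
      rw [Polynomial.aeval_eq_sum_range] at hp
      rw [← hp]
      exact Finset.sum_congr rfl fun i _ => by rw [Algebra.smul_def]; rfl
    have hdeg : 1 ≤ p.natDegree := by
      rcases Nat.eq_zero_or_pos p.natDegree with h | h
      · rw [h] at hroot hlead
        rw [zero_add, Finset.sum_range_one, pow_zero, mul_one] at hroot
        exact absurd hroot hlead
      · exact h
    have hst := alg_step hW' h1' (w j) p.natDegree hdeg (fun i => ((p.coeff i : Algebra.adjoin ℚ (w '' (T : Set υ))) : Ω))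
      M hc hlead hroot Δ
    have hsplit : W ⊔ Submodule.span K (w '' ((insert j U : Finset υ) : Set υ)) =
        W ⊔ Submodule.span K (w '' (U : Set υ)) ⊔ Submodule.span K {w j} := by
      rw [sup_assoc, ← Submodule.span_union]
      congr 2
      rw [Finset.coe_insert, Set.image_insert_eq, Set.insert_eq, Set.union_comm]
    rw [hsplit]
    refine hst.trans ?_
    have h3 := hAB K W hW h1 hwT ((M + 1) * Δ)
    calc p.natDegree * finrank K ((W ⊔ Submodule.span K (w '' (U : Set υ))) ^ ((M + 1) * Δ) : Submodule K Ω)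
        ≤ p.natDegree * (A * finrank K (W ^ (B * ((M + 1) * Δ)) : Submodule K Ω)) := Nat.mul_le_mul_left _ h3
      _ = _ := by rw [← mul_assoc, ← mul_assoc B]

/-- the numerical contradiction -/
theorem contra' {ι υ : Type*} [DecidableEq ι] [DecidableEq υ] [Fintype υ] (K : IntermediateField ℚ Ω)
    [FiniteDimensional ℚ K] {D δ n A B : ℕ} (hD : finrank ℚ K ≤ D) (w : υ → Ω) (T : Finset υ)
    (hAB : ∀ (W : Submodule K Ω), W.FG → (1 : Ω) ∈ W → (∀ j ∈ T, w j ∈ W) → ∀ Δ : ℕ,
      finrank K ((W ⊔ Submodule.span K (w '' ((Finset.univ : Finset υ) : Set υ))) ^ Δ : Submodule K Ω) ≤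
        A * finrank K (W ^ (B * Δ) : Submodule K Ω))
    (y : ι → Ω) (Θ S : Finset ι) (hSΘ : S ⊆ Θ) (hS : S.card = T.card + 1)
    (hn : Θ.card = n) (f : Fin n → Ω)
    (hf : ∀ s, f s ∈ Submodule.span K (insert 1 (Set.range w)) ⊔ Submodule.span K (y '' (Θ : Set ι)))
    (hub : ∀ Δ : ℕ, finrank K ((Submodule.span K (insert 1 (Set.range w)) ⊔ Submodule.span K (y '' (Θ : Set ι))) ^ Δ :
        Submodule K Ω) ≤ δ ^ (T.card + 1) * finrank K ((Submodule.span K (insert 1 (Set.range w)) ⊔
          Submodule.span K (y '' ((Θ \ S : Finset ι) : Set ι))) ^ ((2 * δ + 1) ^ (T.card + 1) * Δ) : Submodule K Ω))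
    (hrel : ∀ P : MvPolynomial (Fin n) ℚ, P.totalDegree ≤
      n * (D * (δ ^ (T.card + 1) * A) * ((B + 1) * (2 * δ + 1) ^ (T.card + 1) * n) ^ (n - 1)) →
      MvPolynomial.aeval f P = 0 → P = 0) :
    False := by
  have hVfg : (Submodule.span K (insert (1 : Ω) (Set.range w))).FG :=
    Submodule.fg_span ((Set.finite_range w).insert 1)
  have h1 : (1 : Ω) ∈ Submodule.span K (insert (1 : Ω) (Set.range w)) :=
    Submodule.subset_span (Set.mem_insert _ _)
  set X := (B + 1) * (2 * δ + 1) ^ (T.card + 1) * n with hX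
  set M := D * (δ ^ (T.card + 1) * A) * X ^ (n - 1) with hM
  have hcard : T.card + 1 ≤ n := by
    rw [← hS, ← hn]
    exact Finset.card_le_card hSΘ
  have hlow := lower K (M := M) f _ (fg_aux hVfg y Θ) (Submodule.mem_sup_left h1) hf hrel
  have hup := hub (n * M)
  set W : Submodule K Ω := Submodule.span K (insert 1 (w '' (T : Set υ))) ⊔
    Submodule.span K (y '' ((Θ \ S : Finset ι) : Set ι)) with hW
  have hWfg : W.FG := fg_aux (Submodule.fg_span ((T.finite_toSet.image w).insert 1)) y _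
  have hW1 : (1 : Ω) ∈ W := Submodule.mem_sup_left (Submodule.subset_span (Set.mem_insert _ _))
  have hWT : ∀ j ∈ T, w j ∈ W := fun j hj =>
    Submodule.mem_sup_left (Submodule.subset_span (Set.mem_insert_of_mem _ ⟨j, Finset.mem_coe.2 hj, rfl⟩))
  have hle : Submodule.span K (insert 1 (Set.range w)) ⊔ Submodule.span K (y '' ((Θ \ S : Finset ι) : Set ι)) ≤
      W ⊔ Submodule.span K (w '' ((Finset.univ : Finset υ) : Set υ)) := by
    refine sup_le (Submodule.span_le.2 ?_) ?_
    · rintro z (rfl | ⟨j, rfl⟩)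
      · exact Submodule.mem_sup_left hW1
      · exact Submodule.mem_sup_right (Submodule.subset_span ⟨j, by simp, rfl⟩)
    · exact le_sup_of_le_left le_sup_right
  have he : W = Submodule.span K (insert 1 ((Sum.elim w y) '' ((T.disjSum (Θ \ S) :
          Finset (υ ⊕ ι)) : Set (υ ⊕ ι)))) := by
    rw [hW, ← Submodule.span_union]
    congr 1
    ext v
    simp only [Set.mem_union, Set.mem_insert_iff, Set.mem_image, Finset.mem_coe, Finset.mem_sdiff,
      Finset.mem_disjSum]
    constructor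
    · rintro ((h | ⟨i, hi, rfl⟩) | ⟨i, hi, rfl⟩)
      · exact Or.inl h
      · exact Or.inr ⟨Sum.inl i, Or.inl ⟨i, hi, rfl⟩, rfl⟩
      · exact Or.inr ⟨Sum.inr i, Or.inr ⟨i, hi, rfl⟩, rfl⟩
    · rintro (h | ⟨x, ⟨i, hi, rfl⟩ | ⟨i, hi, rfl⟩, rfl⟩)
      · exact Or.inl (Or.inl h)
      · exact Or.inl (Or.inr ⟨i, hi, rfl⟩)
      · exact Or.inr ⟨i, hi, rfl⟩
  have hfin1 : FiniteDimensional K ((W ⊔ Submodule.span K (w '' ((Finset.univ : Finset υ) : Set υ))) ^
      ((2 * δ + 1) ^ (T.card + 1) * (n * M)) : Submodule K Ω) :=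
    fin_pow (hWfg.sup (Submodule.fg_span ((Finset.univ : Finset υ).finite_toSet.image w))) _
  have hfree : finrank K ((Submodule.span K (insert 1 (Set.range w)) ⊔
      Submodule.span K (y '' ((Θ \ S : Finset ι) : Set ι))) ^ ((2 * δ + 1) ^ (T.card + 1) * (n * M)) : Submodule K Ω)
      ≤ A * (B * ((2 * δ + 1) ^ (T.card + 1) * (n * M)) + 1) ^ (n - 1) := by
    refine (Submodule.finrank_mono (pow_le_pow_left' hle _)).trans ?_
    refine (hAB W hWfg hW1 hWT _).trans (Nat.mul_le_mul_left _ ?_)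
    rw [he]
    refine (free_many (K := K) _ (Sum.elim w y) _).trans (le_of_eq ?_)
    rw [Finset.card_disjSum, Finset.card_sdiff_of_subset hSΘ, hS, hn]
    congr 1
    omega
  have hXM : B * ((2 * δ + 1) ^ (T.card + 1) * (n * M)) + 1 ≤ X * (M + 1) := by
    have hXpos : 1 ≤ X := Nat.one_le_iff_ne_zero.2 (Nat.mul_ne_zero (by positivity) (by omega))
    have h3 : B * ((2 * δ + 1) ^ (T.card + 1) * (n * M)) ≤ X * M := by
      rw [hX]
      have : (B + 1) * (2 * δ + 1) ^ (T.card + 1) * n * M =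
        B * ((2 * δ + 1) ^ (T.card + 1) * (n * M)) + (2 * δ + 1) ^ (T.card + 1) * (n * M) := by ring
      rw [this]
      exact Nat.le_add_right _ _
    nlinarith
  have hfin : (M + 1) ^ n ≤ (D * (δ ^ (T.card + 1) * A) * X ^ (n - 1)) * (M + 1) ^ (n - 1) := by
    calc (M + 1) ^ n ≤ finrank ℚ K * (δ ^ (T.card + 1) * (A * (X * (M + 1)) ^ (n - 1))) :=
          hlow.trans (Nat.mul_le_mul_left _ (hup.trans (Nat.mul_le_mul_left _
            (hfree.trans (Nat.mul_le_mul_left _ (Nat.pow_le_pow_left hXM _))))))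
      _ ≤ D * (δ ^ (T.card + 1) * (A * (X * (M + 1)) ^ (n - 1))) := Nat.mul_le_mul_right _ hD
      _ = _ := by rw [mul_pow]; ring
  rw [← hM] at hfin
  have hpos : 0 < (M + 1) ^ (n - 1) := by positivity
  have hn1 : (M + 1) ^ n = (M + 1) * (M + 1) ^ (n - 1) := by
    rw [← pow_succ']
    congr 1
    omega
  rw [hn1] at hfin
  have := Nat.le_of_mul_le_mul_right hfin hpos
  omega

/-- **The greedy choice, several sets of coefficients.** -/
theorem greedyU {ι κ : Type*} [DecidableEq ι] [DecidableEq κ] {y : ι → Ω} {Co : κ → Set Ω}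
    (h0 : ∀ k, (0 : Ω) ∈ Co k) {δ : ℕ} (q r : ℕ) (adm : ι → Prop)
    (h : ∀ S : Finset ι, S.card < q → ∃ A : Finset ι, A.card ≤ r ∧ (∀ b ∈ A, adm b) ∧ Disjoint A S ∧
      ∃ k, Bad y (Co k) δ A) :
    ∃ (S B : Finset ι) (I : Finset κ), S.card = q ∧ S ⊆ B ∧ B.card ≤ q * r ∧ I.card ≤ q ∧ (∀ b ∈ B, adm b) ∧
      ∀ (K : IntermediateField ℚ Ω) (V : Submodule K Ω), V.FG → (1 : Ω) ∈ V → (∀ k ∈ I, ∀ c ∈ Co k, c ∈ V ^ δ) →
      ∀ Θ : Finset ι, B ⊆ Θ → ∀ Δ : ℕ,
        finrank K ((V ⊔ Submodule.span K (y '' (Θ : Set ι))) ^ Δ : Submodule K Ω)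
          ≤ δ ^ q * finrank K ((V ⊔ Submodule.span K (y '' ((Θ \ S : Finset ι) : Set ι))) ^ ((2 * δ + 1) ^ q * Δ) :
            Submodule K Ω) := by
  suffices H : ∀ q' ≤ q, ∃ (S B : Finset ι) (I : Finset κ), S.card = q' ∧ S ⊆ B ∧ B.card ≤ q' * r ∧ I.card ≤ q' ∧
      (∀ b ∈ B, adm b) ∧
      ∀ (K : IntermediateField ℚ Ω) (V : Submodule K Ω), V.FG → (1 : Ω) ∈ V → (∀ k ∈ I, ∀ c ∈ Co k, c ∈ V ^ δ) →
      ∀ Θ : Finset ι, B ⊆ Θ → ∀ Δ : ℕ,
        finrank K ((V ⊔ Submodule.span K (y '' (Θ : Set ι))) ^ Δ : Submodule K Ω)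
          ≤ δ ^ q' * finrank K ((V ⊔ Submodule.span K (y '' ((Θ \ S : Finset ι) : Set ι))) ^ ((2 * δ + 1) ^ q' * Δ) :
            Submodule K Ω) from H q le_rfl
  intro q'
  induction q' with
  | zero =>
    intro _
    refine ⟨∅, ∅, ∅, rfl, subset_rfl, by simp, by simp, by simp, ?_⟩
    intro K V _ _ _ Θ _ Δ
    rw [Finset.sdiff_empty, pow_zero, pow_zero, one_mul, one_mul]
  | succ q' ih =>
    intro hq
    obtain ⟨S, B, I, hS, hSB, hBr, hIr, hBa, hrk⟩ := ih (by omega)
    obtain ⟨A, hAr, hAa, hAS, k, hA⟩ := h S (by omega)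
    obtain ⟨A', hA', hbad, s, hs, hmin⟩ := exists_min hA
    have hsS : s ∉ S := Finset.disjoint_left.1 hAS (hA' hs)
    refine ⟨insert s S, A' ∪ B, insert k I, ?_, ?_, ?_, ?_, ?_, ?_⟩
    · rw [Finset.card_insert_of_notMem hsS, hS]
    · exact Finset.insert_subset (Finset.mem_union_left _ hs) (hSB.trans Finset.subset_union_right)
    · have h1 := Finset.card_union_le A' B
      have h2 := Finset.card_le_card hA'
      nlinarith
    · exact (Finset.card_insert_le _ _).trans (Nat.succ_le_succ hIr)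
    · intro b hb
      rcases Finset.mem_union.1 hb with hb | hb
      · exact hAa b (hA' hb)
      · exact hBa b hb
    · intro K V hV h1 hCo Θ hΘ Δ
      refine (hrk K V hV h1 (fun i hi => hCo i (Finset.mem_insert_of_mem hi)) Θ
        (Finset.subset_union_right.trans hΘ) Δ).trans ?_
      set Δ' := (2 * δ + 1) ^ q' * Δ with hΔ'
      set W : Submodule K Ω := V ⊔ Submodule.span K (y '' ((Θ \ insert s S : Finset ι) : Set ι)) with hW
      have hWfg : W.FG := fg_aux hV y _
      have hVW : V ≤ W := le_sup_left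
      have hsplit : V ⊔ Submodule.span K (y '' ((Θ \ S : Finset ι) : Set ι)) = W ⊔ Submodule.span K {y s} := by
        rw [hW, sup_assoc, ← Submodule.span_union]
        congr 2
        have hsT : s ∈ Θ \ S := Finset.mem_sdiff.2 ⟨hΘ (Finset.mem_union_left _ hs), hsS⟩
        have e : Θ \ S = insert s (Θ \ insert s S) := by
          ext i
          simp only [Finset.mem_sdiff, Finset.mem_insert]
          constructor
          · rintro ⟨h3, h4⟩
            by_cases h5 : i = s
            · exact Or.inl h5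
            · exact Or.inr ⟨h3, fun h6 => h6.elim h5 h4⟩
          · rintro (rfl | ⟨h3, h4⟩)
            · exact Finset.mem_sdiff.1 hsT
            · exact ⟨h3, fun h5 => h4 (Or.inr h5)⟩
        rw [e, Finset.coe_insert, Set.image_insert_eq, Set.insert_eq, Set.union_comm]
      obtain ⟨a, c, ha1, haδ, hc, hca, hsum⟩ := step_eq (y := y) hbad hmin (h0 k) (V := W) (hVW h1)
        (fun c hc => pow_le_pow_left' hVW δ (hCo k (Finset.mem_insert_self k I) c hc)) (by
          intro i hi
          refine Submodule.mem_sup_right (Submodule.subset_span ⟨i, ?_, rfl⟩)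
          rw [Finset.mem_erase] at hi
          rw [Finset.mem_coe, Finset.mem_sdiff, Finset.mem_insert]
          refine ⟨hΘ (Finset.mem_union_left _ hi.2), ?_⟩
          rintro (h3 | h3)
          · exact hi.1 h3
          · exact Finset.disjoint_left.1 hAS (hA' hi.2) h3)
      have hst := alg_step hWfg (hVW h1) (y s) a ha1 c (2 * δ) hc hca hsum Δ'
      rw [hsplit]
      calc δ ^ q' * finrank K ((W ⊔ Submodule.span K {y s}) ^ Δ' : Submodule K Ω)
          ≤ δ ^ q' * (δ * finrank K (W ^ ((2 * δ + 1) * Δ') : Submodule K Ω)) :=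
            Nat.mul_le_mul_left _ (hst.trans (Nat.mul_le_mul_right _ haδ))
        _ = δ ^ (q' + 1) * finrank K (W ^ ((2 * δ + 1) ^ (q' + 1) * Δ) : Submodule K Ω) := by
            rw [hΔ', ← mul_assoc, ← pow_succ, ← mul_assoc (2 * δ + 1), ← pow_succ']

/-- the compositum of finitely many fields of bounded degree -/
theorem compositum {d : ℕ} (I : Finset {K : IntermediateField ℚ Ω // FiniteDimensional ℚ K ∧ finrank ℚ K ≤ d}) :
    ∃ L : IntermediateField ℚ Ω, FiniteDimensional ℚ L ∧ finrank ℚ L ≤ d ^ I.card ∧ ∀ K ∈ I, K.1 ≤ L := by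
  classical
  induction I using Finset.induction_on with
  | empty =>
    refine ⟨⊥, inferInstance, ?_, by simp⟩
    rw [IntermediateField.finrank_bot]
    simp
  | insert K I hK ih =>
    obtain ⟨L, h1, h2, h3⟩ := ih
    have h4 := K.2.1
    refine ⟨L ⊔ K.1, inferInstance, ?_, ?_⟩
    · refine (IntermediateField.finrank_sup_le L K.1).trans ?_
      rw [Finset.card_insert_of_notMem hK, pow_succ]
      exact Nat.mul_le_mul h2 K.2.2
    · intro K' hK'
      rcases Finset.mem_insert.1 hK' with rfl | h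
      · exact le_sup_right
      · exact (h3 K' h).trans le_sup_left

/-- powers of spans over a larger field -/
theorem span_pow_field {K L : IntermediateField ℚ Ω} (hKL : K ≤ L) {s : Set Ω} {m : ℕ} {c : Ω}
    (hc : c ∈ (Submodule.span K s) ^ m) : c ∈ (Submodule.span L s) ^ m := by
  rw [Submodule.span_pow] at hc ⊢
  refine Submodule.span_induction (p := fun c _ => c ∈ Submodule.span L (s ^ m)) ?_ ?_ ?_ ?_ hc
  · intro x hx
    exact Submodule.subset_span hx
  · exact Submodule.zero_mem _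
  · intro x y _ _ hx hy
    exact Submodule.add_mem _ hx hy
  · intro k x _ hx
    have : k • x = (⟨(k : Ω), hKL k.2⟩ : L) • x := rfl
    rw [this]
    exact Submodule.smul_mem _ _ hx

section SubH

variable {ι κ υ : Type*} [DecidableEq ι] [DecidableEq κ] [DecidableEq υ] (K : IntermediateField ℚ Ω) (w : υ → Ω)
  (β : κ → ι) (a : κ → K) (v : κ → Ω) (P : MvPolynomial (υ ⊕ κ) K)

/-- the relation `P (w, a X_β + v)` -/
noncomputable def Qh : MvPolynomial ι Ω :=
  MvPolynomial.aeval (Sum.elim (fun j => MvPolynomial.C (w j)) fun i =>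
    MvPolynomial.C ((a i : K) : Ω) * MvPolynomial.X (β i) + MvPolynomial.C (v i)) P

omit [DecidableEq ι] [DecidableEq κ] in
theorem Qh_eq : Qh K w β a v P = MvPolynomial.rename β (MvPolynomial.aeval
    (fun i => MvPolynomial.C ((a i : K) : Ω) * MvPolynomial.X i + MvPolynomial.C (v i)) (MvPolynomial.aeval
      (Sum.elim (fun j => MvPolynomial.C (w j)) MvPolynomial.X) P : MvPolynomial κ Ω) :
      MvPolynomial κ Ω) := by
  unfold Qh
  have h : (MvPolynomial.aeval (Sum.elim (fun j => MvPolynomial.C (w j)) fun i =>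
      MvPolynomial.C ((a i : K) : Ω) * MvPolynomial.X (β i) + MvPolynomial.C (v i)) :
        MvPolynomial (υ ⊕ κ) K →ₐ[K] MvPolynomial ι Ω)
      = ((((MvPolynomial.rename β : MvPolynomial κ Ω →ₐ[Ω] MvPolynomial ι Ω).comp
        (MvPolynomial.aeval (fun i => MvPolynomial.C ((a i : K) : Ω) * MvPolynomial.X i + MvPolynomial.C (v i)) :
          MvPolynomial κ Ω →ₐ[Ω] MvPolynomial κ Ω)).restrictScalars K).comp
        (MvPolynomial.aeval (Sum.elim (fun j => MvPolynomial.C (w j)) MvPolynomial.X))) := by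
    refine MvPolynomial.algHom_ext fun i => ?_
    rcases i with j | i
    · simp
    · simp
  exact DFunLike.congr_fun h P

omit [DecidableEq κ] in
theorem shift_injh (ha : ∀ i, a i ≠ 0) : Function.Injective (MvPolynomial.aeval
    (fun i => MvPolynomial.C ((a i : K) : Ω) * MvPolynomial.X i + MvPolynomial.C (v i)) :
    MvPolynomial κ Ω →ₐ[Ω] MvPolynomial κ Ω) := by
  have h : (MvPolynomial.aeval (fun i => MvPolynomial.C (((a i)⁻¹ : K) : Ω) *
      (MvPolynomial.X i - MvPolynomial.C (v i))) : MvPolynomial κ Ω →ₐ[Ω] MvPolynomial κ Ω).comp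
      (MvPolynomial.aeval (fun i => MvPolynomial.C ((a i : K) : Ω) * MvPolynomial.X i + MvPolynomial.C (v i)) :
      MvPolynomial κ Ω →ₐ[Ω] MvPolynomial κ Ω) = AlgHom.id Ω _ := by
    refine MvPolynomial.algHom_ext fun i => ?_
    have h1 : ((a i : K) : Ω) * (((a i)⁻¹ : K) : Ω) = 1 := by
      have h2 : (a i) * (a i)⁻¹ = 1 := mul_inv_cancel₀ (ha i)
      exact_mod_cast congrArg (fun x : K => (x : Ω)) h2
    have h3 : (MvPolynomial.C ((a i : K) : Ω) * MvPolynomial.C (((a i)⁻¹ : K) : Ω) : MvPolynomial κ Ω) = 1 := by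
      rw [← MvPolynomial.C_mul, h1, MvPolynomial.C_1]
    rw [AlgHom.comp_apply, MvPolynomial.aeval_X, map_add, map_mul, MvPolynomial.aeval_X, MvPolynomial.aeval_C,
      MvPolynomial.aeval_C, AlgHom.id_apply, MvPolynomial.algebraMap_eq, ← mul_assoc, h3]
    ring
  intro x y hxy
  have h1 := DFunLike.congr_fun h x
  have h2 := DFunLike.congr_fun h y
  rw [AlgHom.comp_apply, AlgHom.id_apply] at h1 h2
  rw [← h1, ← h2, hxy]

omit [DecidableEq ι] [DecidableEq κ] in
theorem aeval_Qh (y : ι → Ω) : MvPolynomial.aeval y (Qh K w β a v P)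
    = MvPolynomial.aeval (Sum.elim w fun i => a i * y (β i) + v i) P := by
  unfold Qh
  have h : ((MvPolynomial.aeval y : MvPolynomial ι Ω →ₐ[Ω] Ω).restrictScalars K).comp
      (MvPolynomial.aeval (Sum.elim (fun j => MvPolynomial.C (w j)) fun i =>
        MvPolynomial.C ((a i : K) : Ω) * MvPolynomial.X (β i) + MvPolynomial.C (v i)))
      = (MvPolynomial.aeval (Sum.elim w fun i => a i * y (β i) + v i) : MvPolynomial (υ ⊕ κ) K →ₐ[K] Ω) := by
    refine MvPolynomial.algHom_ext fun i => ?_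
    rcases i with j | i
    · simp
    · simp
  exact DFunLike.congr_fun h P

theorem Qh_ok [Fintype κ] {δ : ℕ} (hP : P.totalDegree ≤ δ)
    (hv : ∀ i, v i ∈ Submodule.span K (insert (1 : Ω) (Set.range w))) :
    Ok ((Submodule.span K (insert (1 : Ω) (Set.range w)) ^ δ : Submodule K Ω) : Set Ω) δ
      (Finset.univ.image β) (Qh K w β a v P) := by
  have h1 : (1 : Ω) ∈ Submodule.span K (insert (1 : Ω) (Set.range w)) := Submodule.subset_span (Set.mem_insert _ _)
  refine ok_aeval h1 ?_ hP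
  rintro (j | i)
  · exact ok_C (by rw [pow_one]; exact Submodule.subset_span (Set.mem_insert_of_mem _ ⟨j, rfl⟩))
  · have h2 := ok_smul (a i) (ok_X (A := Finset.univ.image β) h1 (Finset.mem_image_of_mem β (Finset.mem_univ i)))
    have h3 := ok_C (A := Finset.univ.image β) (V := Submodule.span K (insert (1 : Ω) (Set.range w))) (a := 1)
      (c := v i) (by rw [pow_one]; exact hv i)
    have h4 := ok_sum (Finset.univ : Finset Bool)
      (fun b => if b then (MvPolynomial.C (algebraMap K Ω (a i)) * MvPolynomial.X (β i) : MvPolynomial ι Ω)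
        else MvPolynomial.C (v i))
      (V := Submodule.span K (insert (1 : Ω) (Set.range w))) (a := 1) (A := Finset.univ.image β) (by
        rintro (_ | _) -
        · simpa using h3
        · simpa using h2)
    simpa using h4

end SubH


/-- the constants `w` increase Hilbert functions by bounded factors once the `w_T` are there -/
def Dom {υ : Type*} (A B : ℕ) (w : υ → Ω) (T : Finset υ) : Prop :=
  ∀ (K : IntermediateField ℚ Ω) (W : Submodule K Ω), W.FG → (1 : Ω) ∈ W → (∀ j ∈ T, w j ∈ W) → ∀ Δ : ℕ,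
    finrank K ((W ⊔ Submodule.span K (Set.range w)) ^ Δ : Submodule K Ω) ≤ A * finrank K (W ^ (B * Δ) : Submodule K Ω)

/-- arbitrary constants -/
theorem Dom.univ {υ : Type*} [Fintype υ] (w : υ → Ω) : Dom 1 1 w Finset.univ := by
  intro K W hW h1 h Δ
  have h2 : W ⊔ Submodule.span K (Set.range w) = W :=
    sup_eq_left.2 (Submodule.span_le.2 (by rintro _ ⟨j, rfl⟩; exact h j (Finset.mem_univ j)))
  rw [h2, one_mul, one_mul]

/-- fixed constants -/
theorem Dom.exists {υ : Type*} [Fintype υ] (w : υ → Ω) (T : Finset υ)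
    (hT : ∀ j, IsAlgebraic (Algebra.adjoin ℚ (w '' (T : Set υ))) (w j)) : ∃ A B : ℕ, Dom A B w T := by
  classical
  obtain ⟨A, B, h⟩ := dom w T hT Finset.univ
  refine ⟨A, B, fun K W hW h1 h2 Δ => ?_⟩
  have h3 := h K W hW h1 h2 Δ
  rwa [Finset.coe_univ, Set.image_univ] at h3

/-- **Windows for arbitrary families: one exceptional set for all number fields of bounded degree** -/
theorem awh (Ev : ℕ → ℕ → ℕ) {σ : Type} [Fintype σ] [DecidableEq σ] (r d δ τ A B : ℕ) :
    ∃ E : ℕ, ∀ (Ω : Type) [Field Ω] [CharZero Ω] (I : Type) (size : I → ℕ) (val : I → ℕ → σ → Ω),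
    Inp Ev size val → ∀ (H : ℕ) (t : I), (H + 2) ^ E ≤ size t →
    ∀ (υ : Type) [Fintype υ] (w : υ → Ω) (T : Finset υ), T.card = τ → Dom A B w T →
    ∃ S : Finset ℕ, S.card ≤ τ ∧ ∀ g : Fin r → ℕ, Function.Injective g → (∀ i, 1 ≤ g i ∧ g i ≤ H ∧ g i ∉ S) →
      ∀ K : IntermediateField ℚ Ω, FiniteDimensional ℚ K → finrank ℚ K ≤ d →
      ∀ x : Fin r × σ → Ω, (∀ p, ∃ a : K, a ≠ 0 ∧
        x p - a * val t (g p.1) p.2 ∈ Submodule.span K (insert 1 (Set.range w))) →
      ∀ P : MvPolynomial (υ ⊕ Fin r × σ) K, P.totalDegree ≤ δ → MvPolynomial.aeval (Sum.elim w x) P = 0 →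
      MvPolynomial.aeval (Sum.elim (fun j => MvPolynomial.C (w j)) MvPolynomial.X) P
        = (0 : MvPolynomial (Fin r × σ) Ω) := by
  classical
  set q : ℕ := τ + 1 with hq
  set r' : ℕ := r * Fintype.card σ with hr'
  set N0 : ℕ := q * r' with hN0
  set Dg : ℕ → ℕ := fun N => (N * Fintype.card σ) *
    ((d + 1) ^ q * (δ ^ (τ + 1) * A) * ((B + 1) * (2 * δ + 1) ^ (τ + 1) * (N * Fintype.card σ)) ^
      (N * Fintype.card σ - 1)) with hDg
  refine ⟨∑ N ∈ Finset.range (N0 + 1), Ev N (Dg N), ?_⟩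
  intro Ω _ _ I size val hval H t ht υ _ w T hTc hAB
  by_contra hcon
  push Not at hcon
  set y : ℕ × σ → Ω := fun p => val t p.1 p.2 with hy
  set Co : {K : IntermediateField ℚ Ω // FiniteDimensional ℚ K ∧ finrank ℚ K ≤ d} → Set Ω := fun K =>
    ((Submodule.span K.1 (insert (1 : Ω) (Set.range w)) ^ δ : Submodule K.1 Ω) : Set Ω) with hCo
  obtain ⟨S, Bs, J, hS, hSB, hBr, hIr, hBa, hrk⟩ := greedyU (y := y) (Co := Co)
    (fun K => Submodule.zero_mem _) (δ := δ) q r' (fun p => 1 ≤ p.1 ∧ p.1 ≤ H) (by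
      intro S hS
      obtain ⟨g, hinj, hg, K, hKf, hKd, x, hx, P, hP, hP0, hPne⟩ := hcon (S.image Prod.fst)
        (Finset.card_image_le.trans (by omega))
      choose a ha hxa using hx
      set β : Fin r × σ → ℕ × σ := fun p => (g p.1, p.2) with hβ
      have hβinj : Function.Injective β := by
        rintro ⟨i, s⟩ ⟨i', s'⟩ h
        simp only [hβ, Prod.mk.injEq] at h
        rw [hinj h.1, h.2]
      refine ⟨Finset.univ.image β, ?_, ?_, ?_, ⟨K, hKf, hKd⟩, Qh K w β a (fun p => x p - a p * y (β p)) P, ?_,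
        Qh_ok K w β a _ P hP hxa, ?_⟩
      · refine Finset.card_image_le.trans ?_
        rw [Finset.card_univ, Fintype.card_prod, Fintype.card_fin]
      · intro b hb
        obtain ⟨i, -, rfl⟩ := Finset.mem_image.1 hb
        exact ⟨(hg i.1).1, (hg i.1).2.1⟩
      · rw [Finset.disjoint_left]
        intro b hb hbS
        obtain ⟨i, -, rfl⟩ := Finset.mem_image.1 hb
        exact (hg i.1).2.2 (Finset.mem_image_of_mem Prod.fst hbS)
      · rw [Qh_eq]
        intro h0
        have h1 := MvPolynomial.rename_injective β hβinj (h0.trans (map_zero _).symm)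
        exact hPne (shift_injh K a _ ha (h1.trans (map_zero _).symm))
      · rw [aeval_Qh]
        have : (fun i => (a i : Ω) * y (β i) + (x i - a i * y (β i))) = x := by
          funext i
          ring
        rw [this]
        exact hP0)
  obtain ⟨L, hLf, hLd, hL⟩ := compositum J
  have hLd' : finrank ℚ L ≤ (d + 1) ^ q := by
    refine hLd.trans ((Nat.pow_le_pow_left (Nat.le_succ d) _).trans ?_)
    exact Nat.pow_le_pow_right (Nat.succ_pos d) hIr
  set V : Submodule L Ω := Submodule.span L (insert (1 : Ω) (Set.range w)) with hV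
  set G : Finset ℕ := Bs.image Prod.fst with hG
  set N : ℕ := G.card with hN
  have hNN0 : N ≤ N0 := Finset.card_image_le.trans hBr
  set eG : Fin N ≃ G := G.equivFin.symm with heG
  set g : Fin N → ℕ := fun l => (eG l : ℕ) with hg
  have hginj : Function.Injective g := fun l l' h => eG.injective (Subtype.ext h)
  have hgb : ∀ l, 1 ≤ g l ∧ g l ≤ H := by
    intro l
    obtain ⟨b, hb, hbl⟩ := Finset.mem_image.1 (eG l).2
    have := hBa b hb
    rw [hbl] at this
    exact this
  set Θ : Finset (ℕ × σ) := G ×ˢ Finset.univ with hΘ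
  have hBΘ : Bs ⊆ Θ := by
    intro b hb
    rw [hΘ, Finset.mem_product]
    exact ⟨Finset.mem_image_of_mem _ hb, Finset.mem_univ _⟩
  have hcard : Θ.card = N * Fintype.card σ := by
    rw [hΘ, Finset.card_product, Finset.card_univ]
  set n : ℕ := N * Fintype.card σ with hn
  have en : Fin n ≃ Fin N × σ := (Fintype.equivFinOfCardEq (by rw [Fintype.card_prod, Fintype.card_fin])).symm
  have hVfg : V.FG := Submodule.fg_span ((Set.finite_range w).insert 1)
  have hV1 : (1 : Ω) ∈ V := Submodule.subset_span (Set.mem_insert _ _)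
  have hub := hrk L V hVfg hV1 (fun K hK c hc => span_pow_field (hL K hK) hc) Θ hBΘ
  refine contra' (A := A) (B := B) (δ := δ) L hLd' w T ?_ y Θ S (hSB.trans hBΘ) (by rw [hS, hTc]) hcard
    (fun s : Fin n => y (g (en s).1, (en s).2)) ?_ (by rw [hTc]; exact hub) ?_
  · intro W h1 h2 h3 Δ
    rw [Finset.coe_univ, Set.image_univ]
    exact hAB L W h1 h2 h3 Δ
  · intro s
    refine Submodule.mem_sup_right (Submodule.subset_span ⟨(g (en s).1, (en s).2), ?_, rfl⟩)
    rw [Finset.mem_coe, hΘ, Finset.mem_product]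
    exact ⟨(eG (en s).1).2, Finset.mem_univ _⟩
  · intro P hP hP0
    rw [hTc] at hP
    have hbig : (H + 2) ^ Ev N (Dg N) ≤ size t := by
      refine le_trans (Nat.pow_le_pow_right (by omega) ?_) ht
      exact Finset.single_le_sum (f := fun N => Ev N (Dg N)) (fun i _ => Nat.zero_le _)
        (Finset.mem_range.2 (by omega))
    have h1 := hval N _ H t hbig g hginj hgb (MvPolynomial.rename en P)
      ((MvPolynomial.totalDegree_rename_le _ _).trans hP) (by
        rw [MvPolynomial.aeval_rename]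
        exact hP0)
    exact MvPolynomial.rename_injective en en.injective (h1.trans (map_zero _).symm)

end Pool.Agent.Y916.Om
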