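import Pool.Agent.Y916.Om.Fld

/-!
# Windows for arbitrary families

Input: numbers `val t g s` (`t`, `g` natural numbers, `s` in a finite set `σ`) such that for distinct `g_1, …, g_N` in
`[1, H]` the numbers `val t (g_l) s` have no relation of degree at most `Δ` over `ℚ` for `t ≥ (H + 2)^E`. Output: for `τ`
arbitrary complex numbers `w` there are at most `τ` exceptional `g` in `[1, H]` for relations over `K[w]` of degree at
most `δ`.
-/

set_option autoImplicit false

open Module

namespace Pool.Agent.Y916.Om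

variable {Ω : Type} [Field Ω] [CharZero Ω]

open Pool.Agent.Y916.Hil

section Sub

variable {ι κ : Type*} [DecidableEq ι] [DecidableEq κ] {τ : ℕ} (K : IntermediateField ℚ Ω) (w : Fin τ → Ω)
  (β : κ → ι) (a : κ → K) (v : κ → Ω) (P : MvPolynomial (Fin τ ⊕ κ) K)

/-- the relation `P (w, a X_β + v)` -/
noncomputable def Qs : MvPolynomial ι Ω :=
  MvPolynomial.aeval (Sum.elim (fun j => MvPolynomial.C (w j)) fun i =>
    MvPolynomial.C ((a i : K) : Ω) * MvPolynomial.X (β i) + MvPolynomial.C (v i)) P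

omit [DecidableEq ι] [DecidableEq κ] in
theorem Qs_eq : Qs K w β a v P = MvPolynomial.rename β (MvPolynomial.aeval
    (fun i => MvPolynomial.C ((a i : K) : Ω) * MvPolynomial.X i + MvPolynomial.C (v i)) (MvPolynomial.aeval
      (Sum.elim (fun j => MvPolynomial.C (w j)) MvPolynomial.X) P : MvPolynomial κ Ω) :
      MvPolynomial κ Ω) := by
  unfold Qs
  have h : (MvPolynomial.aeval (Sum.elim (fun j => MvPolynomial.C (w j)) fun i =>
      MvPolynomial.C ((a i : K) : Ω) * MvPolynomial.X (β i) + MvPolynomial.C (v i)) :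
        MvPolynomial (Fin τ ⊕ κ) K →ₐ[K] MvPolynomial ι Ω)
      = ((((MvPolynomial.rename β : MvPolynomial κ Ω →ₐ[Ω] MvPolynomial ι Ω).comp
        (MvPolynomial.aeval (fun i => MvPolynomial.C ((a i : K) : Ω) * MvPolynomial.X i + MvPolynomial.C (v i)) :
          MvPolynomial κ Ω →ₐ[Ω] MvPolynomial κ Ω)).restrictScalars K).comp
        (MvPolynomial.aeval (Sum.elim (fun j => MvPolynomial.C (w j)) MvPolynomial.X))) := by
    refine MvPolynomial.algHom_ext fun i => ?_
    rcases i with j | i
    · simp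
    · simp
  exact DFunLike.congr_fun h P

omit [DecidableEq κ] in
theorem shift_inj (ha : ∀ i, a i ≠ 0) : Function.Injective (MvPolynomial.aeval
    (fun i => MvPolynomial.C ((a i : K) : Ω) * MvPolynomial.X i + MvPolynomial.C (v i)) :
    MvPolynomial κ Ω →ₐ[Ω] MvPolynomial κ Ω) := by
  have h : (MvPolynomial.aeval (fun i => MvPolynomial.C (((a i)⁻¹ : K) : Ω) *
      (MvPolynomial.X i - MvPolynomial.C (v i))) : MvPolynomial κ Ω →ₐ[Ω] MvPolynomial κ Ω).comp
      (MvPolynomial.aeval (fun i => MvPolynomial.C ((a i : K) : Ω) * MvPolynomial.X i + MvPolynomial.C (v i)) :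
      MvPolynomial κ Ω →ₐ[Ω] MvPolynomial κ Ω) = AlgHom.id Ω _ := by
    refine MvPolynomial.algHom_ext fun i => ?_
    have h1 : ((a i : K) : Ω) * (((a i)⁻¹ : K) : Ω) = 1 := by
      have h2 : (a i) * (a i)⁻¹ = 1 := mul_inv_cancel₀ (ha i)
      exact_mod_cast congrArg (fun x : K => (x : Ω)) h2
    have h3 : (MvPolynomial.C ((a i : K) : Ω) * MvPolynomial.C (((a i)⁻¹ : K) : Ω) : MvPolynomial κ Ω) = 1 := by
      rw [← MvPolynomial.C_mul, h1, MvPolynomial.C_1]
    rw [AlgHom.comp_apply, MvPolynomial.aeval_X, map_add, map_mul, MvPolynomial.aeval_X, MvPolynomial.aeval_C,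
      MvPolynomial.aeval_C, AlgHom.id_apply, MvPolynomial.algebraMap_eq, ← mul_assoc, h3]
    ring
  intro x y hxy
  have h1 := DFunLike.congr_fun h x
  have h2 := DFunLike.congr_fun h y
  rw [AlgHom.comp_apply, AlgHom.id_apply] at h1 h2
  rw [← h1, ← h2, hxy]

omit [DecidableEq ι] [DecidableEq κ] in
theorem aeval_Qs (y : ι → Ω) : MvPolynomial.aeval y (Qs K w β a v P)
    = MvPolynomial.aeval (Sum.elim w fun i => a i * y (β i) + v i) P := by
  unfold Qs
  have h : ((MvPolynomial.aeval y : MvPolynomial ι Ω →ₐ[Ω] Ω).restrictScalars K).comp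
      (MvPolynomial.aeval (Sum.elim (fun j => MvPolynomial.C (w j)) fun i =>
        MvPolynomial.C ((a i : K) : Ω) * MvPolynomial.X (β i) + MvPolynomial.C (v i)))
      = (MvPolynomial.aeval (Sum.elim w fun i => a i * y (β i) + v i) : MvPolynomial (Fin τ ⊕ κ) K →ₐ[K] Ω) := by
    refine MvPolynomial.algHom_ext fun i => ?_
    rcases i with j | i
    · simp
    · simp
  exact DFunLike.congr_fun h P

theorem Qs_ok [Fintype κ] {δ : ℕ} (hP : P.totalDegree ≤ δ)
    (hv : ∀ i, v i ∈ Submodule.span K (insert (1 : Ω) (Set.range w))) :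
    Ok ((Submodule.span K (insert (1 : Ω) (Set.range w)) ^ δ : Submodule K Ω) : Set Ω) δ
      (Finset.univ.image β) (Qs K w β a v P) := by
  have h1 : (1 : Ω) ∈ Submodule.span K (insert (1 : Ω) (Set.range w)) := Submodule.subset_span (Set.mem_insert _ _)
  refine ok_aeval h1 ?_ hP
  rintro (j | i)
  · exact ok_C (by rw [pow_one]; exact Submodule.subset_span (Set.mem_insert_of_mem _ ⟨j, rfl⟩))
  · have h2 := ok_smul (a i) (ok_X (A := Finset.univ.image β) h1 (Finset.mem_image_of_mem β (Finset.mem_univ i)))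
    have h3 := ok_C (A := Finset.univ.image β) (V := Submodule.span K (insert (1 : Ω) (Set.range w))) (a := 1)
      (c := v i) (by rw [pow_one]; exact hv i)
    have h4 := ok_sum (Finset.univ : Finset Bool)
      (fun b => if b then (MvPolynomial.C (algebraMap K Ω (a i)) * MvPolynomial.X (β i) : MvPolynomial ι Ω)
        else MvPolynomial.C (v i))
      (V := Submodule.span K (insert (1 : Ω) (Set.range w))) (a := 1) (A := Finset.univ.image β) (by
        rintro (_ | _) -
        · simpa using h3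
        · simpa using h2)
    simpa using h4

end Sub

/-- no relation of degree at most `Δ` over `ℚ` -/
def NoRel {κ : Type*} (x : κ → Ω) (Δ : ℕ) : Prop :=
  ∀ P : MvPolynomial κ ℚ, P.totalDegree ≤ Δ → MvPolynomial.aeval x P = 0 → P = 0

/-- the input: an index `i` of size `size i`, numbers `val i g s`, and exponents `Ev N Δ` -/
def Inp (Ev : ℕ → ℕ → ℕ) {I σ : Type} (size : I → ℕ) (val : I → ℕ → σ → Ω) : Prop :=
  ∀ (N Δ H : ℕ) (i : I), (H + 2) ^ Ev N Δ ≤ size i → ∀ g : Fin N → ℕ, Function.Injective g →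
    (∀ l, 1 ≤ g l ∧ g l ≤ H) → NoRel (fun x : Fin N × σ => val i (g x.1) x.2) Δ

/-- **Windows for arbitrary families** -/
theorem aw (Ev : ℕ → ℕ → ℕ) {σ : Type} [Fintype σ] [DecidableEq σ] (r d δ τ : ℕ) :
    ∃ E : ℕ, ∀ (Ω : Type) [Field Ω] [CharZero Ω] (I : Type) (size : I → ℕ) (val : I → ℕ → σ → Ω),
    Inp Ev size val → ∀ (H : ℕ) (t : I), (H + 2) ^ E ≤ size t →
    ∀ K : IntermediateField ℚ Ω, FiniteDimensional ℚ K → finrank ℚ K ≤ d → ∀ w : Fin τ → Ω,
    ∃ S : Finset ℕ, S.card ≤ τ ∧ ∀ g : Fin r → ℕ, Function.Injective g → (∀ i, 1 ≤ g i ∧ g i ≤ H ∧ g i ∉ S) →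
      ∀ x : Fin r × σ → Ω, (∀ p, ∃ a : K, a ≠ 0 ∧
        x p - a * val t (g p.1) p.2 ∈ Submodule.span K (insert 1 (Set.range w))) →
      ∀ P : MvPolynomial (Fin τ ⊕ Fin r × σ) K, P.totalDegree ≤ δ → MvPolynomial.aeval (Sum.elim w x) P = 0 →
      MvPolynomial.aeval (Sum.elim (fun j => MvPolynomial.C (w j)) MvPolynomial.X) P
        = (0 : MvPolynomial (Fin r × σ) Ω) := by
  classical
  set q : ℕ := τ + 1 with hq
  set r' : ℕ := r * Fintype.card σ with hr'
  set N0 : ℕ := q * r' with hN0
  refine ⟨∑ N ∈ Finset.range (N0 + 1), Ev N ((N * Fintype.card σ) * Mb d δ q (N * Fintype.card σ)), ?_⟩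
  intro Ω _ _ I size val hval H t ht K hKf hKd w
  by_contra hcon
  push Not at hcon
  set y : ℕ × σ → Ω := fun p => val t p.1 p.2 with hy
  set V : Submodule K Ω := Submodule.span K (insert (1 : Ω) (Set.range w)) with hV
  obtain ⟨S, B, hS, hSB, hBr, hBa, hrk⟩ := greedy (y := y) (Co := ((V ^ δ : Submodule K Ω) : Set Ω))
    (Submodule.zero_mem _) (δ := δ) q r' (fun p => 1 ≤ p.1 ∧ p.1 ≤ H) (by
      intro S hS
      obtain ⟨g, hinj, hg, x, hx, P, hP, hP0, hPne⟩ := hcon (S.image Prod.fst)
        (Finset.card_image_le.trans (by omega))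
      choose a ha hxa using hx
      set β : Fin r × σ → ℕ × σ := fun p => (g p.1, p.2) with hβ
      have hβinj : Function.Injective β := by
        rintro ⟨i, s⟩ ⟨i', s'⟩ h
        simp only [hβ, Prod.mk.injEq] at h
        rw [hinj h.1, h.2]
      refine ⟨Finset.univ.image β, ?_, ?_, ?_, Qs K w β a (fun p => x p - a p * y (β p)) P, ?_,
        Qs_ok K w β a _ P hP hxa, ?_⟩
      · refine Finset.card_image_le.trans ?_
        rw [Finset.card_univ, Fintype.card_prod, Fintype.card_fin]
      · intro b hb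
        obtain ⟨i, -, rfl⟩ := Finset.mem_image.1 hb
        exact ⟨(hg i.1).1, (hg i.1).2.1⟩
      · rw [Finset.disjoint_left]
        intro b hb hbS
        obtain ⟨i, -, rfl⟩ := Finset.mem_image.1 hb
        exact (hg i.1).2.2 (Finset.mem_image_of_mem Prod.fst hbS)
      · rw [Qs_eq]
        intro h0
        have h1 := MvPolynomial.rename_injective β hβinj (h0.trans (map_zero _).symm)
        exact hPne (shift_inj K a _ ha (h1.trans (map_zero _).symm))
      · rw [aeval_Qs]
        have : (fun i => (a i : Ω) * y (β i) + (x i - a i * y (β i))) = x := by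
          funext i
          ring
        rw [this]
        exact hP0)
  set G : Finset ℕ := B.image Prod.fst with hG
  set N : ℕ := G.card with hN
  have hNN0 : N ≤ N0 := Finset.card_image_le.trans hBr
  set eG : Fin N ≃ G := G.equivFin.symm with heG
  set g : Fin N → ℕ := fun l => (eG l : ℕ) with hg
  have hginj : Function.Injective g := fun l l' h => eG.injective (Subtype.ext h)
  have hgb : ∀ l, 1 ≤ g l ∧ g l ≤ H := by
    intro l
    obtain ⟨b, hb, hbl⟩ := Finset.mem_image.1 (eG l).2
    have := hBa b hb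
    rw [hbl] at this
    exact this
  set Θ : Finset (ℕ × σ) := G ×ˢ Finset.univ with hΘ
  have hBΘ : B ⊆ Θ := by
    intro b hb
    rw [hΘ, Finset.mem_product]
    exact ⟨Finset.mem_image_of_mem _ hb, Finset.mem_univ _⟩
  have hcard : Θ.card = N * Fintype.card σ := by
    rw [hΘ, Finset.card_product, Finset.card_univ]
  set n : ℕ := N * Fintype.card σ with hn
  have en : Fin n ≃ Fin N × σ := (Fintype.equivFinOfCardEq (by rw [Fintype.card_prod, Fintype.card_fin])).symm
  have hVfg : V.FG := Submodule.fg_span ((Set.finite_range w).insert 1)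
  have hV1 : (1 : Ω) ∈ V := Submodule.subset_span (Set.mem_insert _ _)
  have hub := hrk K V hVfg hV1 (fun c hc => hc) Θ hBΘ
  refine contra K (τ := τ) hKd w y Θ S (hSB.trans hBΘ) hS hcard (fun s : Fin n => y (g (en s).1, (en s).2)) ?_ hub ?_
  · intro s
    refine Submodule.mem_sup_right (Submodule.subset_span ⟨(g (en s).1, (en s).2), ?_, rfl⟩)
    rw [Finset.mem_coe, hΘ, Finset.mem_product]
    exact ⟨(eG (en s).1).2, Finset.mem_univ _⟩
  · intro P hP hP0
    have hbig : (H + 2) ^ Ev N ((N * Fintype.card σ) * Mb d δ q (N * Fintype.card σ)) ≤ size t := by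
      refine le_trans (Nat.pow_le_pow_right (by omega) ?_) ht
      exact Finset.single_le_sum (f := fun N => Ev N ((N * Fintype.card σ) * Mb d δ q (N * Fintype.card σ)))
        (fun i _ => Nat.zero_le _) (Finset.mem_range.2 (by omega))
    have h1 := hval N _ H t hbig g hginj hgb (MvPolynomial.rename en P)
      ((MvPolynomial.totalDegree_rename_le _ _).trans hP) (by
        rw [MvPolynomial.aeval_rename]
        exact hP0)
    exact MvPolynomial.rename_injective en en.injective (h1.trans (map_zero _).symm)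

end Pool.Agent.Y916.Om
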