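import Pool.Agent.Y916.Om.PC

/-!
# Counting in residue classes
-/

set_option autoImplicit false

open Module

namespace Pool.Agent.Y916.Om

open Classical in
/-- few bad points in residue classes give few bad points -/
theorem count_classes (M E : ℕ) : ∃ c : ℝ, 0 < c ∧ c < 1 ∧ ∃ C : ℝ, 0 ≤ C ∧ ∀ (p : ℕ) (_ : 2 ≤ p) (B : ℕ → Prop),
    (∀ H e v : ℕ, (H + 2) ^ E ≤ p ^ e → ¬ p ∣ v → v ≤ p ^ e → ∀ S : Finset ℕ,
      (∀ g ∈ S, 1 ≤ g ∧ g ≤ H ∧ B (v + g * p ^ e)) → S.card ≤ M) →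
    ∀ T : ℕ, 1 ≤ T → (((Finset.Icc 1 T).filter fun n => ¬ p ∣ n ∧ B n).card : ℝ) ≤ C * p * (T : ℝ) ^ (1 - c) := by
  set F := E + 1 with hF
  set c : ℝ := 1 / ((F : ℝ) + 1) with hc
  have hF1 : (1 : ℝ) ≤ F := by rw [hF]; push_cast; linarith [show (0 : ℝ) ≤ E by positivity]
  have hc0 : 0 < c := by positivity
  have hc1 : c < 1 := by
    rw [hc, div_lt_one (by linarith)]
    linarith
  refine ⟨c, hc0, hc1, 4 ^ E + 4 * (M + 1), by positivity, fun p hp B hB T hT => ?_⟩
  have hp2 : (2 : ℝ) ≤ p := by exact_mod_cast hp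
  have hT1 : (1 : ℝ) ≤ T := by exact_mod_cast hT
  have hT0 : (0 : ℝ) < T := by linarith
  have hTc : (1 : ℝ) ≤ (T : ℝ) ^ (1 - c) := Real.one_le_rpow hT1 (by linarith)
  have htriv : (((Finset.Icc 1 T).filter fun n => ¬ p ∣ n ∧ B n).card : ℝ) ≤ T := by
    have h3 : ((Finset.Icc 1 T).filter fun n => ¬ p ∣ n ∧ B n).card ≤ (Finset.Icc 1 T).card :=
      Finset.card_filter_le _ _
    rw [Nat.card_Icc] at h3
    exact_mod_cast h3.trans (by omega)
  by_cases hsm : T < 4 ^ E
  · calc (((Finset.Icc 1 T).filter fun n => ¬ p ∣ n ∧ B n).card : ℝ) ≤ 4 ^ E :=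
        htriv.trans (by exact_mod_cast hsm.le)
      _ ≤ (4 ^ E + 4 * (M + 1)) * p * 1 := by
        have h1 : (0 : ℝ) ≤ M := Nat.cast_nonneg M
        have h2 : (0 : ℝ) < 4 ^ E := by positivity
        nlinarith
      _ ≤ _ := mul_le_mul_of_nonneg_left hTc (by positivity)
  push Not at hsm
  -- the modulus
  have hex : ∃ e : ℕ, (4 * T) ^ E ≤ (p ^ (e + 1)) ^ F := by
    refine ⟨4 * T, ?_⟩
    calc (4 * T) ^ E ≤ (2 ^ (4 * T)) ^ E := Nat.pow_le_pow_left (Nat.lt_two_pow_self).le _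
      _ ≤ (p ^ (4 * T)) ^ E := Nat.pow_le_pow_left (Nat.pow_le_pow_left hp _) _
      _ ≤ (p ^ (4 * T + 1)) ^ E := Nat.pow_le_pow_left (Nat.pow_le_pow_right (by omega) (by omega)) _
      _ ≤ (p ^ (4 * T + 1)) ^ F := Nat.pow_le_pow_right (Nat.pos_of_ne_zero (by positivity)) (by omega)
  set e := Nat.find hex with he
  set X := p ^ (e + 1) with hX
  have hX1 : (4 * T) ^ E ≤ X ^ F := Nat.find_spec hex
  have hXpos : 0 < X := Nat.pow_pos (by omega)
  have hX2 : (X : ℝ) ≤ p * (4 * (T : ℝ) ^ (1 - c)) := by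
    have h0 : (X : ℝ) = p * ((p : ℝ) ^ e) := by
      rw [hX, pow_succ]
      push_cast
      ring
    rw [h0]
    refine mul_le_mul_of_nonneg_left ?_ (by positivity)
    rcases Nat.eq_zero_or_pos e with h1 | h1
    · rw [h1, pow_zero]
      linarith
    · have h2 := Nat.find_min hex (Nat.sub_lt h1 one_pos)
      have h3 : Nat.find hex - 1 + 1 = e := by omega
      rw [not_le, h3] at h2
      have h4 : ((p : ℝ) ^ e) ^ F ≤ (4 * T) ^ E := by exact_mod_cast h2.le
      have h5 : (p : ℝ) ^ e ≤ ((4 * (T : ℝ)) ^ E) ^ ((F : ℝ)⁻¹) := by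
        rw [← Real.rpow_natCast ((p : ℝ) ^ e) F] at h4
        have h6 := Real.rpow_le_rpow (by positivity) h4 (show (0 : ℝ) ≤ (F : ℝ)⁻¹ by positivity)
        rwa [← Real.rpow_mul (by positivity), mul_inv_cancel₀ (by linarith), Real.rpow_one] at h6
      refine h5.trans ?_
      have h7 : ((4 * (T : ℝ)) ^ E) ^ ((F : ℝ)⁻¹) = (4 * (T : ℝ)) ^ ((E : ℝ) * (F : ℝ)⁻¹) := by
        rw [← Real.rpow_natCast, ← Real.rpow_mul (by positivity)]
      rw [h7]
      have h8 : (E : ℝ) * (F : ℝ)⁻¹ ≤ 1 - c := by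
        have h9 : (E : ℝ) = F - 1 := by rw [hF]; push_cast; ring
        rw [h9, hc, sub_mul, mul_inv_cancel₀ (by linarith), one_mul, ← one_div]
        have : 1 / ((F : ℝ) + 1) ≤ 1 / F := one_div_le_one_div_of_le (by linarith) (by linarith)
        linarith
      calc (4 * (T : ℝ)) ^ ((E : ℝ) * (F : ℝ)⁻¹) ≤ (4 * (T : ℝ)) ^ (1 - c) :=
            Real.rpow_le_rpow_of_exponent_le (by linarith) h8
        _ = (4 : ℝ) ^ (1 - c) * (T : ℝ) ^ (1 - c) := Real.mul_rpow (by norm_num) hT0.le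
        _ ≤ 4 * (T : ℝ) ^ (1 - c) := by
            refine mul_le_mul_of_nonneg_right ?_ (by positivity)
            calc (4 : ℝ) ^ (1 - c) ≤ (4 : ℝ) ^ (1 : ℝ) :=
                  Real.rpow_le_rpow_of_exponent_le (by norm_num) (by linarith)
              _ = 4 := Real.rpow_one _
  -- the windows
  have hH : (T / X + 2) ^ E ≤ X := by
    rcases Nat.eq_zero_or_pos E with h0 | h0
    · rw [h0, pow_zero]; exact hXpos
    have hF0 : F ≠ 0 := by omega
    by_cases hXT : X ≤ T
    · have h1 : X * (T / X + 2) ≤ 4 * T := by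
        have := Nat.mul_div_le T X
        nlinarith
      have h2 : (X * (T / X + 2)) ^ E ≤ X ^ F := (Nat.pow_le_pow_left h1 _).trans hX1
      rw [mul_pow, hF, pow_succ] at h2
      exact Nat.le_of_mul_le_mul_left h2 (Nat.pow_pos hXpos)
    · have h1 : T / X = 0 := Nat.div_eq_of_lt (not_le.1 hXT)
      rw [h1, zero_add]
      calc 2 ^ E ≤ 4 ^ E := Nat.pow_le_pow_left (by norm_num) _
        _ ≤ T := hsm
        _ ≤ X := (not_le.1 hXT).le
  have hcard : ((Finset.Icc 1 T).filter fun n => ¬ p ∣ n ∧ B n).card ≤ (M + 1) * X := by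
    have h1 := Finset.card_le_mul_card_image (f := fun n => n % X)
      ((Finset.Icc 1 T).filter fun n => ¬ p ∣ n ∧ B n) (M + 1) (fun v hv => by
        rw [Finset.mem_image] at hv
        obtain ⟨n₀, hn₀, rfl⟩ := hv
        obtain ⟨hn₀1, hn₀2, -⟩ := Finset.mem_filter.1 hn₀
        have hpX : p ∣ X := Dvd.intro_left (p ^ e) (by rw [hX, pow_succ])
        have hv1 : ¬ p ∣ n₀ % X := fun h => hn₀2 ((Nat.dvd_mod_iff hpX).1 h)
        have hv2 : n₀ % X ≤ X := (Nat.mod_lt _ hXpos).le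
        set Sf := (((Finset.Icc 1 T).filter fun n => ¬ p ∣ n ∧ B n).filter fun n => n % X = n₀ % X) with hSf
        have hwin := hB (T / X) (e + 1) (n₀ % X) hH hv1 hv2 ((Sf.image fun n => n / X).erase 0) (by
          intro g hg
          obtain ⟨hg0, hg1⟩ := Finset.mem_erase.1 hg
          obtain ⟨n, hn, rfl⟩ := Finset.mem_image.1 hg1
          obtain ⟨hn1, hn2⟩ := Finset.mem_filter.1 hn
          obtain ⟨hn3, -, hn4⟩ := Finset.mem_filter.1 hn1
          refine ⟨Nat.one_le_iff_ne_zero.2 hg0, Nat.div_le_div_right (Finset.mem_Icc.1 hn3).2, ?_⟩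
          have h5 : n₀ % X + n / X * p ^ (e + 1) = n := by
            rw [← hn2, mul_comm, ← hX]
            exact Nat.mod_add_div n X
          rw [h5]
          exact hn4)
        have h6 : (Sf.image fun n => n / X).card ≤ M + 1 := by
          have := Finset.pred_card_le_card_erase (s := Sf.image fun n => n / X) (a := 0)
          omega
        rw [Finset.card_image_of_injOn] at h6
        · exact h6
        · intro n hn n' hn' hnn
          have h7 := (Finset.mem_filter.1 hn).2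
          have h8 := (Finset.mem_filter.1 hn').2
          have h9 := Nat.mod_add_div n X
          have h10 := Nat.mod_add_div n' X
          have h11 : n / X = n' / X := hnn
          rw [← h9, ← h10, h7, h8, h11])
    refine h1.trans (Nat.mul_le_mul_left _ ?_)
    have h2 : (((Finset.Icc 1 T).filter fun n => ¬ p ∣ n ∧ B n).image fun n => n % X) ⊆ Finset.range X := by
      intro v hv
      obtain ⟨n, -, rfl⟩ := Finset.mem_image.1 hv
      exact Finset.mem_range.2 (Nat.mod_lt _ hXpos)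
    have h3 := Finset.card_le_card h2
    rwa [Finset.card_range] at h3
  calc (((Finset.Icc 1 T).filter fun n => ¬ p ∣ n ∧ B n).card : ℝ) ≤ (M + 1) * X := by exact_mod_cast hcard
    _ ≤ (M + 1) * (p * (4 * (T : ℝ) ^ (1 - c))) := mul_le_mul_of_nonneg_left hX2 (by positivity)
    _ = (4 * (M + 1)) * p * (T : ℝ) ^ (1 - c) := by ring
    _ ≤ _ := by
      refine mul_le_mul_of_nonneg_right (mul_le_mul_of_nonneg_right ?_ (by positivity)) (by positivity)
      linarith [show (0 : ℝ) ≤ 4 ^ E by positivity]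

end Pool.Agent.Y916.Om
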