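import Pool.Agent.Y916.Om.Low

/-!
# Change of fields, relations with substituted constants
-/

set_option autoImplicit false

open Module
open scoped Pointwise

namespace Pool.Agent.Y916.Om

variable {Ω : Type} [Field Ω] [CharZero Ω]

open Pool.Agent.Y916.Hil

theorem field (K : IntermediateField ℚ Ω) (hK : FiniteDimensional ℚ K) (d : ℕ) (Θ : Finset Ω)
    (hΘ : ∀ z ∈ Θ, IsIntegral ℚ z ∧ (minpoly ℚ z).natDegree ≤ d) :
    ∃ K' : IntermediateField ℚ Ω, K ≤ K' ∧ IntermediateField.adjoin ℚ (Θ : Set Ω) ≤ K' ∧ FiniteDimensional ℚ K' ∧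
      finrank ℚ K' ≤ finrank ℚ K * d ^ Θ.card := by
  classical
  induction Θ using Finset.induction_on with
  | empty =>
    refine ⟨K, le_rfl, ?_, hK, by simp⟩
    simp
  | insert z Θ hz ih =>
    obtain ⟨K', h1, h2, h3, h4⟩ := ih fun z hz => hΘ z (Finset.mem_insert_of_mem hz)
    obtain ⟨hzi, hzd⟩ := hΘ z (Finset.mem_insert_self z Θ)
    have hfd : FiniteDimensional ℚ (IntermediateField.adjoin ℚ {z}) := IntermediateField.adjoin.finiteDimensional hzi
    refine ⟨K' ⊔ IntermediateField.adjoin ℚ {z}, h1.trans le_sup_left, ?_, inferInstance, ?_⟩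
    · rw [IntermediateField.adjoin_le_iff]
      intro v hv
      rw [Finset.coe_insert, Set.mem_insert_iff] at hv
      rcases hv with rfl | hv
      · exact (le_sup_right : _ ≤ K' ⊔ IntermediateField.adjoin ℚ {v}) (IntermediateField.mem_adjoin_simple_self ℚ v)
      · exact (le_sup_left : K' ≤ _) (h2 (IntermediateField.subset_adjoin ℚ _ hv))
    · refine (IntermediateField.finrank_sup_le K' (IntermediateField.adjoin ℚ {z})).trans ?_
      rw [IntermediateField.adjoin.finrank hzi, Finset.card_insert_of_notMem hz, pow_succ, ← mul_assoc]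
      exact Nat.mul_le_mul h4 hzd

theorem pow_field (K K' : IntermediateField ℚ Ω) (hK : K ≤ K') (s s' : Set Ω) (hs : s ⊆ s') (δ : ℕ) (c : Ω)
    (hc : c ∈ (Submodule.span K s) ^ δ) : c ∈ (Submodule.span K' s') ^ δ := by
  rw [Submodule.span_pow] at *
  refine Submodule.span_induction (p := fun c _ => c ∈ Submodule.span K' (s' ^ δ)) ?_ ?_ ?_ ?_ hc
  · intro x hx
    exact Submodule.subset_span (Set.pow_subset_pow_left hs hx)
  · exact Submodule.zero_mem _
  · intro x y _ _ hx hy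
    exact Submodule.add_mem _ hx hy
  · intro k x _ hx
    have : k • x = (⟨(k : Ω), hK k.2⟩ : K') • x := rfl
    rw [this]
    exact Submodule.smul_mem _ _ hx

section Calc

variable {ι : Type*} [DecidableEq ι] {K : Type*} [Field K] [Algebra K Ω]

theorem ok_mul {V : Submodule K Ω} {A : Finset ι} {a b : ℕ} {P Q : MvPolynomial ι Ω}
    (hP : Ok ((V ^ a : Submodule K Ω) : Set Ω) a A P) (hQ : Ok ((V ^ b : Submodule K Ω) : Set Ω) b A Q) :
    Ok ((V ^ (a + b) : Submodule K Ω) : Set Ω) (a + b) A (P * Q) := by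
  refine ⟨?_, (MvPolynomial.totalDegree_mul _ _).trans (add_le_add hP.2.1 hQ.2.1), ?_⟩
  · intro m hm i hi
    have h1 := MvPolynomial.support_mul P Q hm
    obtain ⟨m1, hm1, m2, hm2, rfl⟩ := Finset.mem_add.1 h1
    rw [Finsupp.add_apply] at hi
    by_cases h : m1 i = 0
    · exact hQ.1 m2 hm2 i (by omega)
    · exact hP.1 m1 hm1 i h
  · intro m
    rw [MvPolynomial.coeff_mul, pow_add]
    exact Submodule.sum_mem _ fun x _ => Submodule.mul_mem_mul (hP.2.2 _) (hQ.2.2 _)

theorem ok_mono {V : Submodule K Ω} (h1 : (1 : Ω) ∈ V) {A : Finset ι} {a b : ℕ} (hab : a ≤ b) {P : MvPolynomial ι Ω}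
    (hP : Ok ((V ^ a : Submodule K Ω) : Set Ω) a A P) : Ok ((V ^ b : Submodule K Ω) : Set Ω) b A P :=
  ⟨hP.1, hP.2.1.trans hab, fun m => Hil.pow_le_pow h1 hab (hP.2.2 m)⟩

theorem ok_sum {κ : Type*} {V : Submodule K Ω} {A : Finset ι} {a : ℕ} (s : Finset κ) (f : κ → MvPolynomial ι Ω)
    (hf : ∀ i ∈ s, Ok ((V ^ a : Submodule K Ω) : Set Ω) a A (f i)) :
    Ok ((V ^ a : Submodule K Ω) : Set Ω) a A (∑ i ∈ s, f i) := by
  refine ⟨?_, ?_, ?_⟩
  · intro m hm i hi
    rw [MvPolynomial.mem_support_iff, MvPolynomial.coeff_sum] at hm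
    obtain ⟨k, hk, hk'⟩ := Finset.exists_ne_zero_of_sum_ne_zero hm
    exact (hf k hk).1 m (MvPolynomial.mem_support_iff.2 hk') i hi
  · exact (MvPolynomial.totalDegree_finset_sum _ _).trans (Finset.sup_le fun k hk => (hf k hk).2.1)
  · intro m
    rw [MvPolynomial.coeff_sum]
    exact Submodule.sum_mem _ fun k hk => (hf k hk).2.2 m

theorem ok_C {V : Submodule K Ω} {A : Finset ι} {a : ℕ} {c : Ω} (hc : c ∈ V ^ a) :
    Ok ((V ^ a : Submodule K Ω) : Set Ω) a A (MvPolynomial.C c) := by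
  refine ⟨?_, ?_, ?_⟩
  · intro m hm i hi
    rw [MvPolynomial.mem_support_iff, MvPolynomial.coeff_C] at hm
    split_ifs at hm with h
    · rw [← h] at hi
      exact absurd rfl hi
    · exact absurd rfl hm
  · rw [MvPolynomial.totalDegree_C]
    exact Nat.zero_le _
  · intro m
    rw [MvPolynomial.coeff_C]
    split_ifs
    · exact hc
    · exact Submodule.zero_mem _

theorem ok_X {V : Submodule K Ω} (h1 : (1 : Ω) ∈ V) {A : Finset ι} {i : ι} (hi : i ∈ A) :
    Ok ((V ^ 1 : Submodule K Ω) : Set Ω) 1 A (MvPolynomial.X i) := by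
  refine ⟨?_, ?_, ?_⟩
  · intro m hm j hj
    rw [MvPolynomial.mem_support_iff, MvPolynomial.coeff_X'] at hm
    split_ifs at hm with h
    · rw [← h, Finsupp.single_apply] at hj
      split_ifs at hj with h2
      · rw [← h2]
        exact hi
      · exact absurd rfl hj
    · exact absurd rfl hm
  · exact (MvPolynomial.totalDegree_X i).le
  · intro m
    rw [MvPolynomial.coeff_X', pow_one]
    split_ifs
    · exact h1
    · exact Submodule.zero_mem _

theorem ok_pow {V : Submodule K Ω} {A : Finset ι} {P : MvPolynomial ι Ω}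
    (hP : Ok ((V ^ 1 : Submodule K Ω) : Set Ω) 1 A P) (n : ℕ) : Ok ((V ^ n : Submodule K Ω) : Set Ω) n A (P ^ n) := by
  induction n with
  | zero =>
    rw [pow_zero]
    have : (1 : Ω) ∈ V ^ 0 := by simp
    simpa using ok_C (ι := ι) (A := A) this
  | succ n ih =>
    rw [pow_succ]
    exact ok_mul ih hP

theorem ok_prod {κ : Type*} [DecidableEq κ] {V : Submodule K Ω} {A : Finset ι} (s : Finset κ)
    (g : κ → MvPolynomial ι Ω) (hg : ∀ i, Ok ((V ^ 1 : Submodule K Ω) : Set Ω) 1 A (g i)) (m : κ → ℕ) :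
    Ok ((V ^ (∑ i ∈ s, m i) : Submodule K Ω) : Set Ω) (∑ i ∈ s, m i) A (∏ i ∈ s, g i ^ m i) := by
  induction s using Finset.induction_on with
  | empty =>
    rw [Finset.prod_empty, Finset.sum_empty]
    have : (1 : Ω) ∈ V ^ 0 := by simp
    simpa using ok_C (ι := ι) (A := A) this
  | insert j s hj ih =>
    rw [Finset.prod_insert hj, Finset.sum_insert hj]
    exact ok_mul (ok_pow (hg j) _) ih

theorem ok_smul {V : Submodule K Ω} {A : Finset ι} {a : ℕ} {P : MvPolynomial ι Ω} (k : K)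
    (hP : Ok ((V ^ a : Submodule K Ω) : Set Ω) a A P) :
    Ok ((V ^ a : Submodule K Ω) : Set Ω) a A (MvPolynomial.C (algebraMap K Ω k) * P) := by
  have h0 : algebraMap K Ω k ∈ V ^ 0 := by
    rw [pow_zero]
    exact Submodule.algebraMap_mem k
  have := ok_mul (ok_C (A := A) h0) hP
  rwa [zero_add] at this

theorem ok_aeval {κ : Type*} [DecidableEq κ] {V : Submodule K Ω} (h1 : (1 : Ω) ∈ V) {A : Finset ι}
    {g : κ → MvPolynomial ι Ω} (hg : ∀ i, Ok ((V ^ 1 : Submodule K Ω) : Set Ω) 1 A (g i)) {δ : ℕ}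
    {P : MvPolynomial κ K} (hP : P.totalDegree ≤ δ) :
    Ok ((V ^ δ : Submodule K Ω) : Set Ω) δ A (MvPolynomial.aeval g P) := by
  rw [MvPolynomial.aeval_def, MvPolynomial.eval₂_eq]
  refine ok_sum _ _ fun m hm => ?_
  have h3 : (∑ i ∈ m.support, m i) ≤ δ := (MvPolynomial.le_totalDegree hm).trans hP
  exact ok_smul (P.coeff m) (ok_mono h1 h3 (ok_prod m.support g hg fun i => m i))

end Calc



end Pool.Agent.Y916.Om
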