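import Pool.Agent.Y916.Om.Tup

/-!
# Relations with coefficients in a finite dimensional space: coordinates
-/

set_option autoImplicit false

open Module

namespace Pool.Agent.Y916.Om

variable {Ω : Type} [Field Ω] [CharZero Ω]

/-- coordinates -/
theorem coords (V : Submodule ℚ Ω) (hV : Module.Finite ℚ V) (D : ℕ) (hD : finrank ℚ V ≤ D) :
    ∃ (w : Fin D → Ω) (c : Ω → Fin D → ℚ), ∀ v ∈ V, v = ∑ j, ((c v j : ℚ) : Ω) * w j := by
  classical
  set b := Module.finBasis ℚ V with hb
  set w : Fin D → Ω := fun j => if h : (j : ℕ) < finrank ℚ V then (b ⟨j, h⟩ : Ω) else 0 with hw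
  have hbw : ∀ i, (b i : Ω) ∈ Submodule.span ℚ (Set.range w) := by
    intro i
    refine Submodule.subset_span ⟨Fin.castLE hD i, ?_⟩
    rw [hw]
    simp only
    have h4 : ((Fin.castLE hD i : Fin D) : ℕ) < finrank ℚ V := i.2
    rw [dif_pos h4]
    rfl
  have key : ∀ v ∈ V, ∃ c : Fin D → ℚ, v = ∑ j, ((c j : ℚ) : Ω) * w j := by
    intro v hv
    have h2 : v ∈ Submodule.span ℚ (Set.range w) := by
      have h3 := congrArg (fun u : V => (u : Ω)) (b.sum_repr ⟨v, hv⟩)
      simp only [Submodule.coe_sum, Submodule.coe_smul] at h3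
      rw [← h3]
      exact Submodule.sum_mem _ fun i _ => Submodule.smul_mem _ _ (hbw i)
    obtain ⟨c, hc⟩ := (Submodule.mem_span_range_iff_exists_fun ℚ).1 h2
    refine ⟨c, ?_⟩
    rw [← hc]
    refine Finset.sum_congr rfl fun j _ => ?_
    rw [Algebra.smul_def]
    rfl
  choose! c hc using key
  exact ⟨w, c, hc⟩

section Lin

variable {D τ : ℕ} {κ : Type} [Fintype κ] (K : IntermediateField ℚ Ω) (w : Fin D → Ω) (w₀ : Fin τ → Ω)
  (c : Ω → Fin D → ℚ) (P : MvPolynomial κ Ω)

/-- the relation with the coordinates of the coefficients -/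
noncomputable def Pt : MvPolynomial (Fin (D + τ) ⊕ κ) K :=
  ∑ e ∈ P.support, ∑ j : Fin D, MvPolynomial.C (algebraMap ℚ K (c (P.coeff e) j)) *
    (MvPolynomial.X (Sum.inl (Fin.castAdd τ j)) * ∏ i : κ, MvPolynomial.X (Sum.inr i) ^ e i)

theorem Pt_deg {δ : ℕ} (hP : P.totalDegree ≤ δ) : (Pt (τ := τ) K c P).totalDegree ≤ δ + 1 := by
  unfold Pt
  refine (MvPolynomial.totalDegree_finset_sum _ _).trans (Finset.sup_le fun e he => ?_)
  refine (MvPolynomial.totalDegree_finset_sum _ _).trans (Finset.sup_le fun j _ => ?_)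
  refine (MvPolynomial.totalDegree_mul _ _).trans ?_
  rw [MvPolynomial.totalDegree_C, zero_add]
  refine (MvPolynomial.totalDegree_mul _ _).trans ?_
  have h1 : (MvPolynomial.X (Sum.inl (Fin.castAdd τ j)) : MvPolynomial (Fin (D + τ) ⊕ κ) K).totalDegree ≤ 1 :=
    (MvPolynomial.totalDegree_X _).le
  have h2 : (∏ i : κ, (MvPolynomial.X (Sum.inr i) : MvPolynomial (Fin (D + τ) ⊕ κ) K) ^ e i).totalDegree ≤ δ := by
    refine (MvPolynomial.totalDegree_finset_prod _ _).trans ?_
    refine (Finset.sum_le_sum (g := fun i => e i) fun i _ => ?_).trans ?_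
    · refine (MvPolynomial.totalDegree_pow _ _).trans ?_
      rw [MvPolynomial.totalDegree_X, mul_one]
    · have h3 := (MvPolynomial.le_totalDegree he).trans hP
      rwa [Finsupp.sum_fintype _ _ (fun _ => rfl)] at h3
  omega

theorem Pt_val (hc : ∀ e, P.coeff e = ∑ j, ((c (P.coeff e) j : ℚ) : Ω) * w j) {A : Type*} [CommRing A] [Algebra Ω A]
    [Algebra K A] (h1 : ∀ q : ℚ, algebraMap K A (algebraMap ℚ K q) = algebraMap Ω A (q : Ω)) (y : κ → A) :
    MvPolynomial.aeval (Sum.elim (fun j => algebraMap Ω A (Fin.append w w₀ j)) y) (Pt K c P)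
      = MvPolynomial.aeval y P := by
  unfold Pt
  rw [map_sum, MvPolynomial.aeval_def y, MvPolynomial.eval₂_eq']
  refine Finset.sum_congr rfl fun e _ => ?_
  rw [map_sum]
  conv_rhs => rw [hc e, map_sum, Finset.sum_mul]
  refine Finset.sum_congr rfl fun j _ => ?_
  rw [map_mul, map_mul, map_prod, MvPolynomial.aeval_C, MvPolynomial.aeval_X, h1, Sum.elim_inl, Fin.append_left, map_mul]
  simp only [map_pow, MvPolynomial.aeval_X, Sum.elim_inr]
  ring

end Lin

end Pool.Agent.Y916.Om
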