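import Pool.Agent.Y916.Om.Lin

/-!
# Relations with coefficients in number fields

A relation with coefficients in `L V`, `L` a number field of degree at most `d`, gives, by taking the norm, a relation with
coefficients in a power of `V + ℚ`, a space which does not depend on `L`.
-/

set_option autoImplicit false

open Module

namespace Pool.Agent.Y916.Om

variable {Ω : Type} [Field Ω] [CharZero Ω] [IsAlgClosed Ω]


/-- the Galois closure has bounded degree -/
theorem closure (L : IntermediateField ℚ Ω) [FiniteDimensional ℚ L] {d : ℕ} (hd : finrank ℚ L ≤ d) :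
    ∃ L' : IntermediateField ℚ Ω, L ≤ L' ∧ FiniteDimensional ℚ L' ∧ IsGalois ℚ L' ∧ finrank ℚ L' ≤ d ^ d := by
  classical
  have hd1 : 1 ≤ d := le_trans Module.finrank_pos hd
  obtain ⟨α, hα⟩ := Field.exists_primitive_element ℚ L
  have hαi : IsIntegral ℚ α := IsIntegral.of_finite ℚ α
  have hci : IsIntegral ℚ (α : Ω) := hαi.map (IntermediateField.val L)
  set p := minpoly ℚ (α : Ω) with hp
  have hp' : p = minpoly ℚ α := minpoly.algHom_eq (IntermediateField.val L) (IntermediateField.val L).injective α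
  have hdeg : p.natDegree ≤ d := by
    rw [hp', ← IntermediateField.adjoin.finrank hαi, hα]
    refine le_trans (le_of_eq ?_) hd
    exact IntermediateField.finrank_top'
  have hp0 : p ≠ 0 := minpoly.ne_zero hci
  have hsp : (p.map (algebraMap ℚ Ω)).Splits := IsAlgClosed.splits _
  set Θ : Finset Ω := p.rootSet_finite Ω |>.toFinset with hΘ
  have hΘ' : (Θ : Set Ω) = p.rootSet Ω := by rw [hΘ, Set.Finite.coe_toFinset]
  have hΘc : Θ.card ≤ d := by
    have h1 : (p.rootSet Ω).ncard ≤ p.natDegree := by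
      have := Polynomial.ncard_rootSet_le p Ω
      exact this
    rw [← hΘ', Set.ncard_coe_finset] at h1
    exact h1.trans hdeg
  obtain ⟨K', -, h2, h3, h4⟩ := field ⊥ inferInstance d Θ (by
    intro z hz
    have hz1 : z ∈ p.rootSet Ω := by rw [← hΘ']; exact hz
    have hz2 : Polynomial.aeval z p = 0 := ((Polynomial.mem_rootSet_of_ne hp0).1 hz1)
    refine ⟨⟨p, minpoly.monic hci, hz2⟩, ?_⟩
    exact (Polynomial.natDegree_le_of_dvd (minpoly.dvd ℚ z hz2) hp0).trans hdeg)
  set L' := IntermediateField.adjoin ℚ (p.rootSet Ω) with hL'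
  rw [hΘ'] at h2
  have hsf : Polynomial.IsSplittingField ℚ L' p := IntermediateField.adjoin_rootSet_isSplittingField hsp
  have hfd : FiniteDimensional ℚ L' := Polynomial.IsSplittingField.finiteDimensional L' p
  refine ⟨L', ?_, hfd, ?_, ?_⟩
  · intro z hz
    have h5 : (⟨z, hz⟩ : L) ∈ IntermediateField.adjoin ℚ {α} := by rw [hα]; exact IntermediateField.mem_top
    have h6 : IntermediateField.adjoin ℚ {α} ≤ L'.comap (IntermediateField.val L) := by
      rw [IntermediateField.adjoin_le_iff, Set.singleton_subset_iff]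
      change (α : Ω) ∈ L'
      refine IntermediateField.subset_adjoin ℚ _ ?_
      rw [Polynomial.mem_rootSet_of_ne hp0]
      exact minpoly.aeval ℚ (α : Ω)
    exact h6 h5
  · exact IsGalois.of_separable_splitting_field (p := p) (minpoly.irreducible hci).separable
  · have h5 : finrank ℚ L' ≤ finrank ℚ K' := by
      have := IntermediateField.finrank_le_of_le_right h2
      exact this
    refine h5.trans (h4.trans ?_)
    rw [IntermediateField.finrank_bot, one_mul]
    exact Nat.pow_le_pow_right hd1 hΘc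

section Norm

variable {ι β : Type} [Fintype ι] [Fintype β] (L : IntermediateField ℚ Ω) (S : Finset (ι →₀ ℕ)) (v : β → Ω)
  (a : (ι →₀ ℕ) → β → L)

/-- the form with coefficients `a` -/
noncomputable def Pl : MvPolynomial (β ⊕ ι) L :=
  ∑ e ∈ S, ∑ j : β, MvPolynomial.C (a e j) * (MvPolynomial.X (Sum.inl j) * ∏ i : ι, MvPolynomial.X (Sum.inr i) ^ e i)

theorem Pl_deg {δ : ℕ} (hS : ∀ e ∈ S, ∑ i, e i ≤ δ) : (Pl L S a).totalDegree ≤ δ + 1 := by
  unfold Pl
  refine MvPolynomial.totalDegree_finsetSum_le fun e he => ?_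
  refine MvPolynomial.totalDegree_finsetSum_le fun j _ => ?_
  refine (MvPolynomial.totalDegree_mul _ _).trans ?_
  rw [MvPolynomial.totalDegree_C, zero_add]
  refine (MvPolynomial.totalDegree_mul _ _).trans ?_
  have h1 : (MvPolynomial.X (Sum.inl j) : MvPolynomial (β ⊕ ι) L).totalDegree ≤ 1 :=
    (MvPolynomial.totalDegree_X _).le
  have h2 : (∏ i : ι, (MvPolynomial.X (Sum.inr i) : MvPolynomial (β ⊕ ι) L) ^ e i).totalDegree ≤ δ := by
    refine (MvPolynomial.totalDegree_finsetProd _ _).trans ?_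
    refine (Finset.sum_le_sum (g := fun i => e i) fun i _ => ?_).trans (hS e he)
    refine (MvPolynomial.totalDegree_pow _ _).trans ?_
    rw [MvPolynomial.totalDegree_X, mul_one]
  omega

omit [Fintype β] in
theorem map_Pl [Fintype β] (s : L ≃ₐ[ℚ] L) :
    MvPolynomial.map (s : L →+* L) (Pl L S a) = Pl L S (fun e j => s (a e j)) := by
  unfold Pl
  rw [map_sum]
  refine Finset.sum_congr rfl fun e _ => ?_
  rw [map_sum]
  refine Finset.sum_congr rfl fun j _ => ?_
  rw [map_mul, map_mul, map_prod, MvPolynomial.map_C, MvPolynomial.map_X]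
  simp only [map_pow, MvPolynomial.map_X]
  rfl

/-- the value -/
theorem Pl_val {A : Type*} [CommRing A] [Algebra Ω A] (y : ι → A) :
    MvPolynomial.eval₂ ((algebraMap Ω A).comp (algebraMap L Ω)) (Sum.elim (fun j => algebraMap Ω A (v j)) y) (Pl L S a)
      = ∑ e ∈ S, algebraMap Ω A (∑ j, (a e j : Ω) * v j) * ∏ i, y i ^ e i := by
  unfold Pl
  rw [MvPolynomial.eval₂_sum]
  refine Finset.sum_congr rfl fun e _ => ?_
  rw [MvPolynomial.eval₂_sum, map_sum, Finset.sum_mul]
  refine Finset.sum_congr rfl fun j _ => ?_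
  rw [MvPolynomial.eval₂_mul, MvPolynomial.eval₂_mul, MvPolynomial.eval₂_C, MvPolynomial.eval₂_X,
    MvPolynomial.eval₂_prod, map_mul]
  simp only [MvPolynomial.eval₂_pow, MvPolynomial.eval₂_X, Sum.elim_inr, Sum.elim_inl, RingHom.comp_apply]
  rw [mul_assoc]
  rfl

theorem Pl_ne (hv : LinearIndependent L v) {e₀ : ι →₀ ℕ} (he : e₀ ∈ S) {j₀ : β} (ha : a e₀ j₀ ≠ 0) :
    MvPolynomial.eval₂ ((algebraMap Ω (MvPolynomial ι Ω)).comp (algebraMap L Ω))
      (Sum.elim (fun j => algebraMap Ω (MvPolynomial ι Ω) (v j)) MvPolynomial.X) (Pl L S a) ≠ 0 := by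
  classical
  intro h0
  rw [Pl_val] at h0
  have h1 := congrArg (MvPolynomial.coeff e₀) h0
  rw [MvPolynomial.coeff_sum, MvPolynomial.coeff_zero, Finset.sum_eq_single e₀] at h1
  · have h2 : (∏ i, (MvPolynomial.X i : MvPolynomial ι Ω) ^ e₀ i) = MvPolynomial.monomial e₀ 1 := by
      rw [MvPolynomial.monomial_eq, MvPolynomial.C_1, one_mul, Finsupp.prod_fintype _ _ (fun _ => pow_zero _)]
    rw [MvPolynomial.algebraMap_eq, h2, MvPolynomial.coeff_C_mul, MvPolynomial.coeff_monomial, if_pos rfl, mul_one] at h1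
    exact ha (Fintype.linearIndependent_iff.1 hv (a e₀) h1 j₀)
  · intro e _ hne
    have h2 : (∏ i, (MvPolynomial.X i : MvPolynomial ι Ω) ^ e i) = MvPolynomial.monomial e 1 := by
      rw [MvPolynomial.monomial_eq, MvPolynomial.C_1, one_mul, Finsupp.prod_fintype _ _ (fun _ => pow_zero _)]
    rw [MvPolynomial.algebraMap_eq, h2, MvPolynomial.coeff_C_mul, MvPolynomial.coeff_monomial, if_neg hne, mul_zero]
  · intro h
    exact absurd he h

end Norm

/-- relations with coefficients in `L V` -/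
theorem rel_nf {ι : Type} [Fintype ι] {δ d : ℕ} {V : Submodule ℚ Ω} [Module.Finite ℚ V]
    (L : IntermediateField ℚ Ω) [FiniteDimensional ℚ L] (hL : finrank ℚ L ≤ d) {x : ι → Ω}
    (P : MvPolynomial ι Ω) (hP0 : P ≠ 0) (hPd : P.totalDegree ≤ δ)
    (hPc : ∀ e, P.coeff e ∈ Submodule.span L (V : Set Ω)) (hPv : MvPolynomial.aeval x P = 0) :
    Rel (d ^ d * (δ + 1)) ((V ⊔ 1) ^ (d ^ d * (δ + 1))) x := by
  classical
  obtain ⟨L', hLL', hfd, hgal, hdeg⟩ := closure L hL
  -- a basis of `L' V`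
  set b₀ := Module.finBasis ℚ V with hb₀
  set s₀ : Set Ω := Set.range fun i => (b₀ i : Ω) with hs₀
  obtain ⟨b, hb1, hb2, hb3⟩ := exists_linearIndependent L' s₀
  have hbf : b.Finite := (Set.finite_range _).subset hb1
  have : Fintype b := hbf.fintype
  have hVs : (V : Set Ω) ⊆ Submodule.span L' s₀ := by
    intro c hc
    have h3 := congrArg (fun u : V => (u : Ω)) (b₀.sum_repr ⟨c, hc⟩)
    simp only [Submodule.coe_sum, Submodule.coe_smul] at h3
    rw [SetLike.mem_coe, ← h3]
    refine Submodule.sum_mem _ fun i _ => ?_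
    have h4 : b₀.repr ⟨c, hc⟩ i • (b₀ i : Ω) = (algebraMap ℚ L' (b₀.repr ⟨c, hc⟩ i)) • (b₀ i : Ω) := by
      rw [algebraMap_smul]
    rw [h4]
    exact Submodule.smul_mem _ _ (Submodule.subset_span ⟨i, rfl⟩)
  have hPc' : ∀ e, P.coeff e ∈ Submodule.span L' b := by
    intro e
    rw [hb2]
    have h1 := pow_field L L' hLL' (V : Set Ω) (V : Set Ω) subset_rfl 1 (P.coeff e) (by rw [pow_one]; exact hPc e)
    rw [pow_one] at h1
    exact (Submodule.span_le.2 hVs) h1
  have hex : ∀ e, ∃ a : b → L', P.coeff e = ∑ j, (a j : Ω) * (j : Ω) := by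
    intro e
    have h1 := hPc' e
    have h2 : b = Set.range (fun j : b => (j : Ω)) := Subtype.range_coe.symm
    rw [h2] at h1
    obtain ⟨a, ha⟩ := (Submodule.mem_span_range_iff_exists_fun L').1 h1
    refine ⟨a, ?_⟩
    rw [← ha]
    rfl
  choose a ha using hex
  set v : b → Ω := fun j => (j : Ω) with hv
  set Q₀ := Pl L' P.support a with hQ₀
  set N : MvPolynomial (b ⊕ ι) L' := ∏ s : L' ≃ₐ[ℚ] L', MvPolynomial.map (s : L' →+* L') Q₀ with hN
  have hNfix : ∀ (τ : L' ≃ₐ[ℚ] L') m, τ (N.coeff m) = N.coeff m := by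
    intro τ m
    have h1 : MvPolynomial.map (τ : L' →+* L') N = N := by
      rw [hN, map_prod]
      refine Fintype.prod_equiv (Equiv.mulLeft τ) _ _ fun s => ?_
      rw [MvPolynomial.map_map]
      rfl
    have h2 := congrArg (MvPolynomial.coeff m) h1
    rw [MvPolynomial.coeff_map] at h2
    exact h2
  have hNQ : ∃ N₀ : MvPolynomial (b ⊕ ι) ℚ, MvPolynomial.map (algebraMap ℚ L') N₀ = N := by
    have h1 : N ∈ Set.range (MvPolynomial.map (σ := b ⊕ ι) (algebraMap ℚ L')) := by
      rw [MvPolynomial.mem_range_map_iff_coeffs_subset]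
      intro c hc
      obtain ⟨m, -, rfl⟩ := MvPolynomial.mem_coeffs_iff.1 hc
      exact (IsGalois.mem_range_algebraMap_iff_fixed (F := ℚ) (E := L') _).2 fun τ => hNfix τ m
    exact h1
  obtain ⟨N₀, hN₀⟩ := hNQ
  have hcard : Fintype.card (L' ≃ₐ[ℚ] L') ≤ d ^ d := by
    have h1 := IsGalois.card_aut_eq_finrank ℚ L'
    rw [Nat.card_eq_fintype_card] at h1
    rw [h1]
    exact hdeg
  set m := d ^ d * (δ + 1) with hm
  have hNd : N₀.totalDegree ≤ m := by
    have h1 : N₀.totalDegree = N.totalDegree := by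
      rw [← hN₀]
      unfold MvPolynomial.totalDegree
      rw [MvPolynomial.support_map_of_injective _ (algebraMap ℚ L').injective]
    rw [h1, hN]
    refine (MvPolynomial.totalDegree_finsetProd _ _).trans ?_
    refine (Finset.sum_le_card_nsmul _ _ (δ + 1) fun s _ => ?_).trans ?_
    · rw [map_Pl]
      refine Pl_deg L' _ _ fun e he => ?_
      have h3 := (MvPolynomial.le_totalDegree he).trans hPd
      rwa [Finsupp.sum_fintype _ _ (fun _ => rfl)] at h3
    · rw [smul_eq_mul]
      exact Nat.mul_le_mul_right _ hcard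
  -- the values of the conjugates
  have hval : ∀ {A : Type} [CommRing A] [Algebra Ω A] (y : ι → A),
      MvPolynomial.aeval (Sum.elim (fun j => algebraMap Ω A (v j)) y) (MvPolynomial.map (algebraMap ℚ Ω) N₀)
        = ∏ s : L' ≃ₐ[ℚ] L', MvPolynomial.eval₂ ((algebraMap Ω A).comp (algebraMap L' Ω))
          (Sum.elim (fun j => algebraMap Ω A (v j)) y) (Pl L' P.support fun e j => s (a e j)) := by
    intro A _ _ y
    rw [MvPolynomial.aeval_def, MvPolynomial.eval₂_map]
    have h1 : (algebraMap Ω A).comp (algebraMap ℚ Ω) = ((algebraMap Ω A).comp (algebraMap L' Ω)).comp (algebraMap ℚ L') :=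
      RingHom.ext fun q => rfl
    rw [h1, ← MvPolynomial.eval₂_map, hN₀, hN, MvPolynomial.eval₂_prod]
    refine Finset.prod_congr rfl fun s _ => ?_
    rw [map_Pl]
  set Ls : b ⊕ ι → MvPolynomial ι Ω := Sum.elim (fun j => algebraMap Ω (MvPolynomial ι Ω) (v j)) MvPolynomial.X with hLs
  have hV1 : (1 : Ω) ∈ V ⊔ 1 := Submodule.mem_sup_right (Submodule.one_le.1 le_rfl)
  have hbV : ∀ j, v j ∈ V := by
    intro j
    obtain ⟨i, hi⟩ := hb1 j.2
    rw [hv]
    simp only
    rw [← hi]
    exact (b₀ i).2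
  have hLD : ∀ i, DC 1 (V ⊔ 1) (Ls i) := by
    rintro (j | i)
    · refine ⟨?_, fun s => ?_⟩
      · simp only [hLs, Sum.elim_inl, MvPolynomial.algebraMap_eq]
        rw [MvPolynomial.totalDegree_C]
        exact Nat.zero_le _
      · simp only [hLs, Sum.elim_inl, MvPolynomial.algebraMap_eq]
        rw [MvPolynomial.coeff_C]
        split_ifs
        · exact Submodule.mem_sup_left (hbV j)
        · exact Submodule.zero_mem _
    · refine ⟨?_, fun s => ?_⟩
      · simp only [hLs, Sum.elim_inr]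
        exact (MvPolynomial.totalDegree_X i).le
      · simp only [hLs, Sum.elim_inr]
        rw [MvPolynomial.coeff_X]
        split_ifs
        · exact hV1
        · exact Submodule.zero_mem _
  have hDC : DC m (1 * (V ⊔ 1) ^ m) (MvPolynomial.aeval Ls (MvPolynomial.map (algebraMap ℚ Ω) N₀)) := by
    refine DC.subst' hV1 Ls hLD ⟨(le_of_eq ?_).trans hNd, fun s => ?_⟩
    · unfold MvPolynomial.totalDegree
      rw [MvPolynomial.support_map_of_injective _ (algebraMap ℚ Ω).injective]
    rw [MvPolynomial.coeff_map]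
    exact Submodule.mem_one.2 ⟨_, rfl⟩
  rw [one_mul] at hDC
  refine ⟨MvPolynomial.aeval Ls (MvPolynomial.map (algebraMap ℚ Ω) N₀), ?_, hDC.1, hDC.2, ?_⟩
  · rw [hLs, hval, Finset.prod_ne_zero_iff]
    intro s _
    obtain ⟨e₀, he₀⟩ := MvPolynomial.ne_zero_iff.1 hP0
    have h1 : ∃ j, a e₀ j ≠ 0 := by
      by_contra hcon
      push Not at hcon
      apply he₀
      rw [ha e₀]
      refine Finset.sum_eq_zero fun j _ => ?_
      rw [hcon j]
      simp
    obtain ⟨j₀, hj₀⟩ := h1
    refine Pl_ne L' P.support v _ hb3 (MvPolynomial.mem_support_iff.2 he₀) (j₀ := j₀) ?_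
    exact (map_ne_zero_iff s s.injective).2 hj₀
  · have h1 : MvPolynomial.aeval x (MvPolynomial.aeval Ls (MvPolynomial.map (algebraMap ℚ Ω) N₀))
        = MvPolynomial.aeval (Sum.elim (fun j => algebraMap Ω Ω (v j)) x) (MvPolynomial.map (algebraMap ℚ Ω) N₀) := by
      have h2 : (MvPolynomial.aeval x : MvPolynomial ι Ω →ₐ[Ω] Ω).comp (MvPolynomial.aeval Ls)
          = MvPolynomial.aeval (Sum.elim (fun j => algebraMap Ω Ω (v j)) x) := by
        refine MvPolynomial.algHom_ext fun i => ?_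
        rcases i with j | i
        · simp [hLs]
        · simp [hLs]
      exact DFunLike.congr_fun h2 _
    rw [h1, hval]
    refine Finset.prod_eq_zero (Finset.mem_univ (AlgEquiv.refl : L' ≃ₐ[ℚ] L')) ?_
    rw [Pl_val]
    have h2 : ∀ e, (∑ j, ((AlgEquiv.refl : L' ≃ₐ[ℚ] L') (a e j) : Ω) * v j) = P.coeff e := fun e => (ha e).symm
    simp only [h2]
    rw [MvPolynomial.aeval_def, MvPolynomial.eval₂_eq'] at hPv
    exact hPv

/-- the dimension of the larger space -/
theorem big {D : ℕ} {V : Submodule ℚ Ω} [Module.Finite ℚ V] (hV : finrank ℚ V ≤ D) (m : ℕ) :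
    Module.Finite ℚ ((V ⊔ 1) ^ m : Submodule ℚ Ω) ∧ finrank ℚ ((V ⊔ 1) ^ m : Submodule ℚ Ω) ≤ (D + 1) ^ m := by
  have h1 : (1 : Submodule ℚ Ω) = Submodule.span ℚ {1} := Submodule.one_eq_span
  have hf1 : Module.Finite ℚ (1 : Submodule ℚ Ω) := by rw [h1]; infer_instance
  have hf : Module.Finite ℚ (V ⊔ 1 : Submodule ℚ Ω) := Submodule.finite_sup V 1
  have h2 : finrank ℚ (V ⊔ 1 : Submodule ℚ Ω) ≤ D + 1 := by
    have h3 := Submodule.finrank_add_le_finrank_add_finrank V (1 : Submodule ℚ Ω)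
    have h4 : finrank ℚ (1 : Submodule ℚ Ω) = 1 := by
      rw [h1]
      exact finrank_span_singleton one_ne_zero
    omega
  obtain ⟨h5, h6⟩ := finrank_pow_le (V ⊔ 1) m
  exact ⟨h5, h6.trans (Nat.pow_le_pow_left h2 _)⟩

end Pool.Agent.Y916.Om
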