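import Pool.Agent.Y916.Om.Box

/-!
# Boxes for `p`-adic logarithms
-/

set_option autoImplicit false

open Module

namespace Pool.Agent.Y916.Om

open Pool.Agent.Y921.PW

/-- relations over a number field with coefficients in the span of a space -/
theorem RelL.bad {Ω : Type} [Field Ω] [CharZero Ω] {κ : Type} {δ d D : ℕ} {V : Submodule ℚ Ω}
    {w : Fin D → Ω} (hw : V ≤ Submodule.span ℚ (Set.range w)) {x : κ → Ω} (h : RelL δ d V x) : BadW d δ 1 w x := by
  obtain ⟨L, h1, h2, P, hP0, hPd, hPc, hPv⟩ := h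
  refine ⟨L, h1, h2, P, hP0, hPd, fun s => ?_, hPv⟩
  rw [pow_one]
  have h3 : Submodule.span L (V : Set Ω) ≤ Submodule.span L (insert 1 (Set.range w)) := by
    refine Submodule.span_le.2 fun z hz => ?_
    have h4 : Submodule.span ℚ (Set.range w) ≤ (Submodule.span L (insert (1 : Ω) (Set.range w))).restrictScalars ℚ :=
      Submodule.span_le.2 fun y hy => Submodule.subset_span (Set.mem_insert_of_mem _ hy)
    exact h4 (hw hz)
  exact h3 (hPc s)

open Classical in
/-- **Boxes for `p`-adic logarithms** -/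
theorem pbox (k δ d D : ℕ) : ∃ E : ℕ,
    ∀ (p : ℕ) [Fact p.Prime] (A : Type) [NormedField A] [NormedAlgebra ℚ_[p] A] [CharZero A] (L : A → A), Iw p L →
    ∀ V : Submodule ℚ A, Module.Finite ℚ V → finrank ℚ V ≤ D → ∀ (H : ℕ) (e v : Fin k → ℕ),
    (∀ i, (H + 2) ^ E ≤ p ^ e i ∧ ¬ p ∣ v i ∧ v i ≤ p ^ e i) →
    ((Fintype.piFinset fun _ : Fin k => Finset.Icc 1 H).filter fun g =>
      RelL δ d V (fun i => L ((v i + g i * p ^ e i : ℕ) : A))).card ≤ (k * (D + 1) + k.choose 2) * H ^ (k - 1) := by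
  obtain ⟨E, hE⟩ := box Ev (σ := Unit) d δ 1 1 1 k 1 D
  refine ⟨E + 1, fun p _ A _ _ _ L hL V hV hVD H e v hev => ?_⟩
  set I : Type := {q : ℕ × ℕ // 1 ≤ q.1 ∧ ¬ p ∣ q.2 ∧ q.2 ≤ p ^ q.1} with hI
  set size : I → ℕ := fun q => p ^ q.1.1 with hsize
  set val : I → ℕ → Unit → A := fun q g _ => lval p A q.1.1 q.1.2 g with hval
  set x : I → ℕ → Unit → A := fun q g _ => L ((q.1.2 + g * p ^ q.1.1 : ℕ) : A) with hx
  have hinp : Inp Ev size val := fun N Δ H q h1 g hg hgb =>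
    log_inp (A := A) N Δ H q.1.1 q.1.2 h1 q.2.2.1 q.2.2.2 g hg hgb
  have hlink : LinkI 1 val x := fun q => log_link hL q.1.1 q.1.2 q.2.1 q.2.2.1 q.2.2.2
  have he1 : ∀ i, 1 ≤ e i := by
    intro i
    by_contra h0
    have h1 : e i = 0 := by omega
    have h3 := (hev i).1
    rw [h1, pow_zero] at h3
    have h2 : H + 2 ≤ (H + 2) ^ (E + 1) := Nat.le_self_pow (by omega) _
    omega
  set t : Fin k → I := fun i => ⟨(e i, v i), he1 i, (hev i).2.1, (hev i).2.2⟩ with ht
  obtain ⟨w, c, hwc⟩ := coords V hV D hVD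
  have hw : V ≤ Submodule.span ℚ (Set.range w) := by
    intro z hz
    rw [hwc z hz]
    refine Submodule.sum_mem _ fun j _ => ?_
    have : ((c z j : ℚ) : A) * w j = (c z j) • w j := by
      rw [Algebra.smul_def]
      rfl
    rw [this]
    exact Submodule.smul_mem _ _ (Submodule.subset_span ⟨j, rfl⟩)
  have h1 := hE A I size val x hinp hlink H t (fun i =>
    (Nat.pow_le_pow_right (by omega) (Nat.le_succ E)).trans (hev i).1) (Fin D) w Finset.univ
    (by rw [Finset.card_univ, Fintype.card_fin]) (Dom.univ w)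
  rw [Fintype.card_unit, one_mul] at h1
  refine (Finset.card_le_card fun g hg => ?_).trans h1
  obtain ⟨hg1, hg2⟩ := Finset.mem_filter.1 hg
  refine Finset.mem_filter.2 ⟨hg1, ?_⟩
  obtain ⟨K, h3, h4, h5⟩ := hg2.bad hw
  exact ⟨K, h3, h4, h5.reindex (Equiv.prodPUnit (Fin k))⟩

end Pool.Agent.Y916.Om
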