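import Pool.Agent.Y916.Om.NF

/-!
# Residue classes: windows and counting, uniformly in `p`
-/

set_option autoImplicit false

open Module

namespace Pool.Agent.Y916.Om

section

variable {Ω : Type} [Field Ω] [CharZero Ω] {σ : Type}

/-- the input: for every residue class `v` modulo `p^e` numbers `val e v g s`, and exponents `Ev N Δ` -/
def InpP (Ev : ℕ → ℕ → ℕ) (p : ℕ) (val : ℕ → ℕ → ℕ → σ → Ω) : Prop :=
  ∀ N Δ H e v : ℕ, (H + 2) ^ Ev N Δ ≤ p ^ e → ¬ p ∣ v → v ≤ p ^ e → ∀ g : Fin N → ℕ, Function.Injective g →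
    (∀ l, 1 ≤ g l ∧ g l ≤ H) → NoRel (fun x : Fin N × σ => val e v (g x.1) x.2) Δ

/-- the link with numbers `x n s`: up to `τ` unknown constants which depend on the residue class -/
def LinkP (p τ : ℕ) (val : ℕ → ℕ → ℕ → σ → Ω) (x : ℕ → σ → Ω) : Prop :=
  ∀ e v : ℕ, 1 ≤ e → ¬ p ∣ v → v ≤ p ^ e → ∃ w : Fin τ → Ω, ∀ g : ℕ, 1 ≤ g → ∀ s,
    x (v + g * p ^ e) s - val e v g s ∈ Submodule.span ℚ (insert 1 (Set.range w))

end

/-- windows in residue classes -/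
theorem pwin (Ev : ℕ → ℕ → ℕ) {σ : Type} [Fintype σ] [DecidableEq σ] (τ δ D : ℕ) : ∃ E : ℕ,
    ∀ (Ω : Type) [Field Ω] [CharZero Ω] (p : ℕ) (val : ℕ → ℕ → ℕ → σ → Ω) (x : ℕ → σ → Ω), InpP Ev p val →
    LinkP p τ val x → ∀ V : Submodule ℚ Ω, Module.Finite ℚ V → finrank ℚ V ≤ D → ∀ H e v : ℕ,
    (H + 2) ^ E ≤ p ^ e → ¬ p ∣ v → v ≤ p ^ e → ∀ S : Finset ℕ,
    (∀ g ∈ S, 1 ≤ g ∧ g ≤ H ∧ Rel δ V (x (v + g * p ^ e))) → S.card ≤ D + τ := by
  classical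
  obtain ⟨E, hE⟩ := aw Ev (σ := σ) 1 1 (δ + 1) (D + τ)
  refine ⟨E + 1, fun Ω _ _ p val x hval hlink V hV hVD H e v hHe' hv hve S hS => ?_⟩
  have he1 : 1 ≤ e := by
    by_contra h0
    have h1 : e = 0 := by omega
    rw [h1, pow_zero] at hHe'
    have h2 : H + 2 ≤ (H + 2) ^ (E + 1) := Nat.le_self_pow (by omega) _
    omega
  have hHe : (H + 2) ^ E ≤ p ^ e := (Nat.pow_le_pow_right (by omega) (by omega)).trans hHe'
  obtain ⟨w, c, hwc⟩ := coords V hV D hVD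
  obtain ⟨w₀, hw₀⟩ := hlink e v he1 hv hve
  have hinp : Inp Ev (fun _ : Unit => p ^ e) (fun _ : Unit => val e v) :=
    fun N Δ H' _ h1 g hg hgb => hval N Δ H' e v h1 hv hve g hg hgb
  obtain ⟨X, hX, hwin⟩ := hE Ω Unit (fun _ => p ^ e) (fun _ => val e v) hinp H () hHe ⊥ inferInstance
    (by rw [IntermediateField.finrank_bot]) (Fin.append w w₀)
  refine le_trans (Finset.card_le_card fun g hg => ?_) hX
  obtain ⟨hg1, hgH, hrel⟩ := hS g hg
  by_contra hcon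
  obtain ⟨P, hP0, hPd, hPc, hPv⟩ := hrel.reindex (Equiv.uniqueProd σ (Fin 1))
  have hc : ∀ e, P.coeff e = ∑ j, ((c (P.coeff e) j : ℚ) : Ω) * w j := fun e => hwc _ (hPc e)
  have hspan : Submodule.span ℚ (insert (1 : Ω) (Set.range w₀)) ≤
      (Submodule.span (⊥ : IntermediateField ℚ Ω) (insert 1 (Set.range (Fin.append w w₀)))).restrictScalars ℚ := by
    refine Submodule.span_le.2 ?_
    rintro y (rfl | ⟨i, rfl⟩)
    · exact Submodule.subset_span (Set.mem_insert _ _)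
    · exact Submodule.subset_span (Set.mem_insert_of_mem _ ⟨Fin.natAdd D i, by rw [Fin.append_right]⟩)
  have h9 := hwin (fun _ : Fin 1 => g) (fun i j _ => Subsingleton.elim i j) (fun _ => ⟨hg1, hgH, hcon⟩)
    (fun q : Fin 1 × σ => x (v + g * p ^ e) q.2) (fun q => ⟨1, one_ne_zero, by
      have h1 := hspan (hw₀ g hg1 q.2)
      simpa using h1⟩)
    (Pt ⊥ c P) (Pt_deg ⊥ c P hPd) (by
      have h10 := Pt_val ⊥ w w₀ c P hc (A := Ω) (fun q => rfl) (fun q : Fin 1 × σ => x (v + g * p ^ e) q.2)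
      exact h10.trans hPv)
  have h11 := Pt_val (⊥ : IntermediateField ℚ Ω) w w₀ c P hc (A := MvPolynomial (Fin 1 × σ) Ω) (fun q => rfl)
    MvPolynomial.X
  rw [MvPolynomial.aeval_X_left_apply] at h11
  exact hP0 (h11.symm.trans h9)

end Pool.Agent.Y916.Om
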