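import Pool.Agent.Y916.Om.Cnt

/-!
# Tuples of integers prime to `p`
-/

set_option autoImplicit false

open Module

namespace Pool.Agent.Y916.Om

/-- the numbers of a tuple -/
def tup {Ω : Type} {σ : Type} (x : ℕ → σ → Ω) {k : ℕ} (t : Fin k → ℕ) : Fin k × σ → Ω := fun q => x (t q.1) q.2

open Classical in
/-- few bad tuples -/
theorem ptuples (Ev : ℕ → ℕ → ℕ) {σ : Type} [Fintype σ] (τ δ k : ℕ) : ∀ D : ℕ, ∃ c : ℝ, 0 < c ∧ ∃ C : ℝ, 0 ≤ C ∧
    ∀ (Ω : Type) [Field Ω] [CharZero Ω] (p : ℕ) (_ : 2 ≤ p) (val : ℕ → ℕ → ℕ → σ → Ω) (x : ℕ → σ → Ω), InpP Ev p val →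
    LinkP p τ val x → ∀ V : Submodule ℚ Ω, Module.Finite ℚ V → finrank ℚ V ≤ D → ∀ T : ℕ, 1 ≤ T →
      (((Fintype.piFinset fun _ : Fin k => (Finset.Icc 1 T).filter fun n => ¬ p ∣ n).filter fun t =>
        Rel δ V (tup x t)).card : ℝ) ≤ C * p * (T : ℝ) ^ ((k : ℝ) - c) := by
  induction k with
  | zero =>
    intro D
    refine ⟨1, one_pos, 0, le_rfl, fun Ω _ _ p hp val x _ _ V _ _ T _ => ?_⟩
    rw [Finset.filter_false_of_mem, Finset.card_empty]
    · simp
    · rintro t _ ⟨P, hP0, -, -, hPv⟩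
      obtain ⟨a, rfl⟩ : ∃ a, P = MvPolynomial.C a := ⟨_, MvPolynomial.eq_C_of_isEmpty P⟩
      rw [MvPolynomial.aeval_C] at hPv
      apply hP0
      have : a = 0 := hPv
      rw [this, map_zero]
  | succ k ih =>
    intro D
    obtain ⟨c₁, hc₁, C₁, hC₁, h₁⟩ := ih D
    obtain ⟨E, hME⟩ := pwin Ev (σ := σ) τ δ (D * (k * Fintype.card σ + 1) ^ δ)
    obtain ⟨c₂, hc₂, hc₂1, C₂, hC₂, h₂⟩ := count_classes (D * (k * Fintype.card σ + 1) ^ δ + τ) E
    refine ⟨min c₁ c₂, lt_min hc₁ hc₂, C₁ + C₂, by positivity,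
      fun Ω _ _ p hp val x hval hlink V hV hVD T hT => ?_⟩
    have hT1 : (1 : ℝ) ≤ T := by exact_mod_cast hT
    have hT0 : (0 : ℝ) < T := by linarith
    have hp0 : (0 : ℝ) ≤ p := Nat.cast_nonneg p
    set A : Finset ℕ := (Finset.Icc 1 T).filter fun n => ¬ p ∣ n with hA
    set bad₁ := (Fintype.piFinset fun _ : Fin k => A).filter fun t => Rel δ V (tup x t) with hbad₁
    set bad₂ : (Fin k → ℕ) → Finset ℕ := fun t => A.filter fun n => Rel δ (V * (sp (tup x t)) ^ δ) (x n) with hbad₂
    have hsub : ((Fintype.piFinset fun _ : Fin (k + 1) => A).filter fun t => Rel δ V (tup x t)) ⊆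
        ((A ×ˢ bad₁).image fun p => (Fin.cons p.1 p.2 : Fin (k + 1) → ℕ)) ∪
        (((Fintype.piFinset fun _ : Fin k => A).sigma bad₂).image
          fun p => (Fin.cons p.2 p.1 : Fin (k + 1) → ℕ)) := by
      intro t ht
      obtain ⟨ht1, ht2⟩ := Finset.mem_filter.1 ht
      rw [Fintype.mem_piFinset] at ht1
      set e : Fin k × σ ⊕ σ ≃ Fin (k + 1) × σ :=
        { toFun := Sum.elim (fun p => (p.1.succ, p.2)) (fun s => (0, s))
          invFun := fun p => Fin.cases (Sum.inr p.2) (fun i => Sum.inl (i, p.2)) p.1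
          left_inv := by rintro (⟨i, s⟩ | s) <;> simp
          right_inv := by
            rintro ⟨i, s⟩
            refine Fin.cases ?_ (fun i => ?_) i <;> simp } with he
      have h3 := ht2.reindex e
      have h4 : (fun j => tup x t (e j)) = Sum.elim (tup x fun i => t i.succ) (x (t 0)) := by
        funext j
        rcases j with ⟨i, s⟩ | s
        · rfl
        · rfl
      rw [h4] at h3
      have htail : (fun i => t i.succ) ∈ Fintype.piFinset fun _ : Fin k => A := by
        rw [Fintype.mem_piFinset]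
        exact fun i => ht1 i.succ
      rcases h3.split with h5 | h5
      · refine Finset.mem_union_left _ (Finset.mem_image.2 ⟨(t 0, fun i => t i.succ), ?_, ?_⟩)
        · exact Finset.mem_product.2 ⟨ht1 0, Finset.mem_filter.2 ⟨htail, h5⟩⟩
        · funext i
          refine Fin.cases ?_ (fun i => ?_) i <;> simp
      · refine Finset.mem_union_right _ (Finset.mem_image.2 ⟨⟨fun i => t i.succ, t 0⟩, ?_, ?_⟩)
        · exact Finset.mem_sigma.2 ⟨htail, Finset.mem_filter.2 ⟨ht1 0, h5⟩⟩
        · funext i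
          refine Fin.cases ?_ (fun i => ?_) i <;> simp
    have hcard : (((Fintype.piFinset fun _ : Fin (k + 1) => A).filter fun t => Rel δ V (tup x t)).card : ℝ) ≤
        T * (C₁ * p * (T : ℝ) ^ ((k : ℝ) - c₁)) + (T : ℝ) ^ k * (C₂ * p * (T : ℝ) ^ (1 - c₂)) := by
      have hIcc : (A.card : ℝ) ≤ T := by
        have h0 : A.card ≤ (Finset.Icc 1 T).card := Finset.card_filter_le _ _
        rw [Nat.card_Icc] at h0
        exact_mod_cast (by omega : A.card ≤ T)
      have h3 : (((Fintype.piFinset fun _ : Fin (k + 1) => A).filter fun t => Rel δ V (tup x t)).card : ℝ) ≤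
          ((A ×ˢ bad₁).card : ℝ) + (((Fintype.piFinset fun _ : Fin k => A).sigma bad₂).card : ℝ) := by
        exact_mod_cast (Finset.card_le_card hsub).trans ((Finset.card_union_le _ _).trans
          (add_le_add Finset.card_image_le Finset.card_image_le))
      refine h3.trans (add_le_add ?_ ?_)
      · rw [Finset.card_product]
        push_cast
        exact mul_le_mul hIcc (h₁ Ω p hp val x hval hlink V hV hVD T hT) (by positivity) (by positivity)
      · rw [Finset.card_sigma]
        push_cast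
        have h4 : ∀ t ∈ Fintype.piFinset (fun _ : Fin k => A), ((bad₂ t).card : ℝ) ≤ C₂ * p * (T : ℝ) ^ (1 - c₂) := by
          intro t _
          obtain ⟨hs1, hs2⟩ := sp_fin (tup x t)
          obtain ⟨hp1, hp2⟩ := finrank_pow_le (sp (tup x t)) δ
          obtain ⟨hq1, hq2⟩ := finrank_mul_le V ((sp (tup x t)) ^ δ)
          have h5 := h₂ p hp (fun n => Rel δ (V * (sp (tup x t)) ^ δ) (x n)) (hME Ω p val x hval hlink _ hq1 (hq2.trans ?_))
            T hT
          · rw [hbad₂, hA]
            simp only [Finset.filter_filter]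
            exact h5
          · refine Nat.mul_le_mul hVD (hp2.trans (Nat.pow_le_pow_left (hs2.trans ?_) _))
            rw [Fintype.card_prod, Fintype.card_fin]
        refine (Finset.sum_le_card_nsmul _ _ _ h4).trans ?_
        rw [nsmul_eq_mul, Fintype.card_piFinset]
        simp only [Finset.prod_const, Finset.card_univ, Fintype.card_fin]
        push_cast
        refine mul_le_mul_of_nonneg_right ?_ (by positivity)
        exact pow_le_pow_left₀ (by positivity) hIcc _
    refine hcard.trans ?_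
    have e1 : (T : ℝ) * (C₁ * p * (T : ℝ) ^ ((k : ℝ) - c₁)) = C₁ * p * (T : ℝ) ^ (((k + 1 : ℕ) : ℝ) - c₁) := by
      have : (((k + 1 : ℕ) : ℝ) - c₁) = 1 + ((k : ℝ) - c₁) := by push_cast; ring
      rw [this, Real.rpow_add hT0, Real.rpow_one]
      ring
    have e2 : (T : ℝ) ^ k * (C₂ * p * (T : ℝ) ^ (1 - c₂)) = C₂ * p * (T : ℝ) ^ (((k + 1 : ℕ) : ℝ) - c₂) := by
      have : (((k + 1 : ℕ) : ℝ) - c₂) = (k : ℝ) + (1 - c₂) := by push_cast; ring
      rw [this, Real.rpow_add hT0, Real.rpow_natCast]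
      ring
    rw [e1, e2, add_mul, add_mul]
    refine add_le_add (mul_le_mul_of_nonneg_left ?_ (by positivity)) (mul_le_mul_of_nonneg_left ?_ (by positivity))
    · exact Real.rpow_le_rpow_of_exponent_le hT1 (by linarith [min_le_left c₁ c₂])
    · exact Real.rpow_le_rpow_of_exponent_le hT1 (by linarith [min_le_right c₁ c₂])

end Pool.Agent.Y916.Om
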