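import Pool.Agent.Y916.Om.Alg

/-!
# Project GF: relations between several groups of numbers, counting
-/

set_option autoImplicit false

open Finset.HasAntidiagonal

namespace Pool.Agent.Y916.Om

variable {Ω : Type} [Field Ω] [CharZero Ω]

lemma DC.prod_pow' {ι σ : Type} {W : Submodule ℚ Ω} (s : Finset ι) (L : ι → MvPolynomial σ Ω)
    (hL : ∀ i, DC 1 W (L i)) (e : ι → ℕ) : DC (∑ i ∈ s, e i) (W ^ (∑ i ∈ s, e i)) (∏ i ∈ s, L i ^ e i) := by
  classical
  induction s using Finset.induction_on with
  | empty =>
    simp only [Finset.sum_empty, Finset.prod_empty, pow_zero]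
    exact DC.one _ (Submodule.one_le.1 le_rfl)
  | insert a s ha ih =>
    rw [Finset.prod_insert ha, Finset.sum_insert ha, pow_add]
    have h2 := (hL a).pow (e a)
    rw [one_mul] at h2
    exact h2.mul ih

/-- a linear substitution -/
lemma DC.subst' {ι τ : Type} [Fintype ι] {m : ℕ} {V W : Submodule ℚ Ω} (h1 : (1 : Ω) ∈ W) (L : ι → MvPolynomial τ Ω)
    (hL : ∀ i, DC 1 W (L i)) {P : MvPolynomial ι Ω} (hP : DC m V P) : DC m (V * W ^ m) (MvPolynomial.aeval L P) := by
  classical
  rw [MvPolynomial.aeval_def, MvPolynomial.eval₂_eq']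
  refine DC.sum _ fun s hs => ?_
  have hs' : ∑ i, s i ≤ m := by
    have h2 := MvPolynomial.le_totalDegree hs
    have h3 : (s.sum fun _ e => e) = ∑ i, s i := by
      rw [Finsupp.sum_fintype]
      simp
    rw [h3] at h2
    exact h2.trans hP.1
  have h2 : DC 0 V (MvPolynomial.C (MvPolynomial.coeff s P) : MvPolynomial τ Ω) := by
    refine ⟨by simp, fun t => ?_⟩
    rw [MvPolynomial.coeff_C]
    split_ifs
    · exact hP.2 s
    · exact Submodule.zero_mem _
  have h3 := h2.mul (DC.prod_pow' Finset.univ L hL s)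
  rw [zero_add] at h3
  refine h3.mono hs' ?_
  exact Submodule.mul_le.2 fun a ha b hb => Submodule.mul_mem_mul ha (pow_mono_sub h1 hs' hb)

/-- the space spanned by `1` and the numbers `x i` -/
noncomputable def sp {σ : Type} (x : σ → Ω) : Submodule ℚ Ω := Submodule.span ℚ (Set.range fun o : Option σ => o.elim 1 x)

lemma sp_one {σ : Type} (x : σ → Ω) : (1 : Ω) ∈ sp x := Submodule.subset_span ⟨none, rfl⟩
lemma sp_mem {σ : Type} (x : σ → Ω) (i : σ) : x i ∈ sp x := Submodule.subset_span ⟨some i, rfl⟩

lemma sp_fin {σ : Type} [Fintype σ] (x : σ → Ω) : Module.Finite ℚ (sp x) ∧ Module.finrank ℚ (sp x) ≤ Fintype.card σ + 1 := by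
  refine ⟨Module.Finite.span_of_finite ℚ (Set.finite_range _), (finrank_range_le_card _).trans ?_⟩
  rw [Fintype.card_option]

lemma Rel.reindex {δ : ℕ} {V : Submodule ℚ Ω} {σ τ : Type} {x : σ → Ω} (e : τ ≃ σ) (h : Rel δ V x) :
    Rel δ V (fun j => x (e j)) := by
  obtain ⟨P, hP0, hPd, hPc, hPv⟩ := h
  refine ⟨MvPolynomial.rename e.symm P, ?_, ?_, ?_, ?_⟩
  · intro h0
    exact hP0 (MvPolynomial.rename_injective e.symm e.symm.injective (by rw [h0, map_zero]))
  · exact (MvPolynomial.totalDegree_rename_le _ _).trans hPd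
  · intro s
    have h1 : s = Finsupp.mapDomain e.symm (Finsupp.mapDomain e s) := by
      rw [← Finsupp.mapDomain_comp]
      simp
    rw [h1, MvPolynomial.coeff_rename_mapDomain e.symm e.symm.injective]
    exact hPc _
  · rw [MvPolynomial.aeval_rename]
    have : (fun j => x (e j)) ∘ e.symm = x := by
      funext i
      simp
    rw [this]
    exact hPv

/-- splitting of the variables -/
lemma Rel.split {δ : ℕ} {V : Submodule ℚ Ω} {σ τ : Type} [Fintype σ] [Fintype τ] {x : σ → Ω} {y : τ → Ω}
    (h : Rel δ V (Sum.elim x y)) : Rel δ V x ∨ Rel δ (V * (sp x) ^ δ) y := by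
  classical
  obtain ⟨P, hP0, hPd, hPc, hPv⟩ := h
  set L : σ ⊕ τ → MvPolynomial τ Ω := Sum.elim (fun i => MvPolynomial.C (x i)) (fun j => MvPolynomial.X j) with hL
  have hLD : ∀ i, DC 1 (sp x) (L i) := by
    rintro (i | j)
    · refine ⟨by simp [hL], fun s => ?_⟩
      simp only [hL, Sum.elim_inl]
      rw [MvPolynomial.coeff_C]
      split_ifs
      · exact sp_mem x i
      · exact Submodule.zero_mem _
    · refine ⟨by simp [hL], fun s => ?_⟩
      simp only [hL, Sum.elim_inr]
      rw [MvPolynomial.coeff_X]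
      split_ifs
      · exact sp_one x
      · exact Submodule.zero_mem _
  set R := MvPolynomial.aeval L P with hR
  have hRD : DC δ (V * (sp x) ^ δ) R := DC.subst' (sp_one x) L hLD ⟨hPd, hPc⟩
  by_cases hR0 : R = 0
  · left
    obtain ⟨s₀, hs₀⟩ := MvPolynomial.ne_zero_iff.1 hP0
    set rs : (σ ⊕ τ →₀ ℕ) → (σ →₀ ℕ) := fun s => Finsupp.equivFunOnFinite.symm fun i => s (Sum.inl i) with hrs
    set rt : (σ ⊕ τ →₀ ℕ) → (τ →₀ ℕ) := fun s => Finsupp.equivFunOnFinite.symm fun i => s (Sum.inr i) with hrt
    set F := P.support.filter (fun s => rt s = rt s₀) with hF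
    set Q : MvPolynomial σ Ω := ∑ s ∈ F, MvPolynomial.monomial (rs s) (P.coeff s) with hQ
    have hinj : ∀ s s', rs s = rs s' → rt s = rt s' → s = s' := by
      intro s s' h1 h2
      ext i
      rcases i with i | i
      · exact DFunLike.congr_fun h1 i
      · exact DFunLike.congr_fun h2 i
    have hQc : ∀ a, Q.coeff a = 0 ∨ ∃ s, Q.coeff a = P.coeff s := by
      intro a
      rw [hQ, MvPolynomial.coeff_sum]
      by_cases ha : ∃ s ∈ F, rs s = a
      · obtain ⟨s, hs, rfl⟩ := ha
        right
        refine ⟨s, ?_⟩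
        rw [Finset.sum_eq_single s]
        · rw [MvPolynomial.coeff_monomial, if_pos rfl]
        · intro s' hs' hne
          rw [MvPolynomial.coeff_monomial, if_neg]
          intro h
          exact hne (hinj _ _ h (((Finset.mem_filter.1 hs').2).trans (Finset.mem_filter.1 hs).2.symm))
        · exact fun h => absurd hs h
      · left
        push Not at ha
        refine Finset.sum_eq_zero fun s hs => ?_
        rw [MvPolynomial.coeff_monomial, if_neg (ha s hs)]
    have hs₀F : s₀ ∈ F := Finset.mem_filter.2 ⟨MvPolynomial.mem_support_iff.2 hs₀, rfl⟩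
    refine ⟨Q, ?_, ?_, ?_, ?_⟩
    · intro h0
      have h1 : Q.coeff (rs s₀) = P.coeff s₀ := by
        rw [hQ, MvPolynomial.coeff_sum, Finset.sum_eq_single s₀]
        · rw [MvPolynomial.coeff_monomial, if_pos rfl]
        · intro s' hs' hne
          rw [MvPolynomial.coeff_monomial, if_neg]
          intro h
          exact hne (hinj _ _ h (Finset.mem_filter.1 hs').2)
        · exact fun h => absurd hs₀F h
      rw [h0, MvPolynomial.coeff_zero] at h1
      exact hs₀ h1.symm
    · refine MvPolynomial.totalDegree_finsetSum_le fun s hs => ?_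
      refine (MvPolynomial.totalDegree_monomial_le _ _).trans ?_
      have h1 := MvPolynomial.le_totalDegree (Finset.mem_filter.1 hs).1
      have h2 : (s.sum fun _ e => e) = ∑ i, s i := by
        rw [Finsupp.sum_fintype]; simp
      have h3 : ((rs s).sum fun _ e => e) = ∑ i, s (Sum.inl i) := by
        rw [Finsupp.sum_fintype]
        · rfl
        · simp
      show ((rs s).sum fun _ e => e) ≤ δ
      rw [h3]
      rw [h2, Fintype.sum_sum_type] at h1
      omega
    · intro a
      rcases hQc a with h | ⟨s, h⟩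
      · rw [h]; exact Submodule.zero_mem _
      · rw [h]; exact hPc s
    · have h1 : R.coeff (rt s₀) = MvPolynomial.aeval x Q := by
        rw [hR, MvPolynomial.aeval_def, MvPolynomial.eval₂_eq', MvPolynomial.coeff_sum, hQ, map_sum]
        rw [← Finset.sum_filter_add_sum_filter_not P.support (fun s => rt s = rt s₀)]
        rw [← hF]
        have h2 : ∀ s : σ ⊕ τ →₀ ℕ, MvPolynomial.coeff (rt s₀) ((algebraMap Ω (MvPolynomial τ Ω)) (P.coeff s) *
            ∏ i, L i ^ s i) = if rt s = rt s₀ then P.coeff s * ∏ i, x i ^ s (Sum.inl i) else 0 := by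
          intro s
          have h3 : (algebraMap Ω (MvPolynomial τ Ω)) (P.coeff s) * ∏ i, L i ^ s i =
              MvPolynomial.monomial (rt s) (P.coeff s * ∏ i, x i ^ s (Sum.inl i)) := by
            rw [Fintype.prod_sum_type]
            simp only [hL, Sum.elim_inl, Sum.elim_inr]
            rw [MvPolynomial.monomial_eq, MvPolynomial.algebraMap_eq, MvPolynomial.C_mul, mul_assoc]
            congr 1
            congr 1
            · rw [map_prod]
              exact Finset.prod_congr rfl fun i _ => by rw [map_pow]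
            · rw [Finsupp.prod_fintype]
              · rfl
              · intro i; simp
          rw [h3, MvPolynomial.coeff_monomial]
        simp only [h2]
        rw [Finset.sum_congr rfl (g := fun s => P.coeff s * ∏ i, x i ^ s (Sum.inl i))
          (fun s hs => by rw [if_pos (Finset.mem_filter.1 hs).2])]
        rw [Finset.sum_eq_zero (s := P.support.filter fun s => ¬ rt s = rt s₀) (fun s hs => by
          rw [if_neg (Finset.mem_filter.1 hs).2]), add_zero]
        refine Finset.sum_congr rfl fun s _ => ?_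
        rw [MvPolynomial.aeval_monomial, Finsupp.prod_fintype]
        · rfl
        · intro i; simp
      rw [← h1, hR0, MvPolynomial.coeff_zero]
  · right
    refine ⟨R, hR0, hRD.1, hRD.2, ?_⟩
    have h1 : MvPolynomial.aeval y R = MvPolynomial.aeval (fun i => MvPolynomial.aeval y (L i)) P := by
      rw [hR, ← MvPolynomial.comp_aeval_apply]
    rw [h1]
    have h2 : (fun i => MvPolynomial.aeval y (L i)) = Sum.elim x y := by
      funext i
      rcases i with i | i
      · simp [hL]
      · simp [hL]
    rw [h2]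
    exact hPv

end Pool.Agent.Y916.Om
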